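import Pool.Agent.Work.Monodromy.Interface14
import Pool.Agent.Work.Monodromy13.Final13
import Pool.Agent.Work.Monodromy9.Final9

/-!
# Phase 14: the theorem from the blocks (helper2)
-/

set_option autoImplicit false

namespace Pool.Agent.Mono.NP

open MvPolynomial Filter Topology

namespace ASM14Aux

open FinalAux

variable {ι : Type} [Fintype ι] [DecidableEq ι]

theorem xq_eq : TS.xq = (RatFunc.X : RatFunc ℚ)⁻¹ := rfl

/-- a pole of a sum over a finite type -/
theorem pole_sum {β : Type} [Fintype β] (V : β → RatFunc ℚ) (s : ℂ)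
    (h : Polynomial.aeval s (∑ b, V b).denom = 0) : ∃ b, Polynomial.aeval s (V b).denom = 0 := by
  classical
  by_contra hc
  push Not at hc
  have key : ∀ S : Finset β, Polynomial.aeval s (∑ b ∈ S, V b).denom ≠ 0 := by
    intro S
    induction S using Finset.induction_on with
    | empty => simp
    | insert a S ha ih =>
      rw [Finset.sum_insert ha]
      intro h1
      rcases pole_add h1 with h2 | h2
      · exact hc a h2
      · exact ih h2
  exact key Finset.univ h

/-- the data of the models -/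
structure Mdl (f : MvPolynomial ι ℂ) (p : ι → ℂ) where
  κ : Type
  fin : Fintype κ
  dec : DecidableEq κ
  w : κ → ι → ℕ
  a : κ → ℂ
  ne : Nonempty κ
  inj : Function.Injective w
  nd : NdP w a
  crit : SP.Crit0 (poly w a) ⊆ {fun _ => 0}
  ctt : C9.Ctt9 f p (poly w a)

end ASM14Aux

open FinalAux ASM14Aux

/-- the monodromy conjecture for polynomials whose singularities have corank at most two, are
semi-quasi-homogeneous, or are isolated and nondegenerate -/
theorem good14 (hGEO : Stmt_GEO14) (hPTG : Stmt_PTG14) (hEIG : Stmt_EIG14) (hRLI : Stmt_RLI14)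
    (hGLU : Stmt_GLU14) (hFIN : Stmt_FIN14) (hCOM : Stmt_COM14) (hDEC : Stmt_DEC14)
    (E : EulerMeasure) {ι : Type} [Fintype ι] [DecidableEq ι] (f : MvPolynomial ι ℂ)
    (hf : f.totalDegree ≠ 0)
    (hc : ∀ p ∈ SP.Crit0 f, Fintype.card ι ≤ (SP.Hs f p).rank + 2 ∨ (∃ r, RO.SQAt f p r) ∨
      NdAt f p)
    (e : ℕ) (he : 1 ≤ e) (R : RatFunc ℚ) (hR : IsTwTopZeta E.toHodgeMeasure f e R) :
    GoodPoles f R := by
  classical
  -- the isolated nondegenerate points
  have hfin : {p : ι → ℂ | p ∈ SP.Crit0 f ∧ NdAt f p}.Finite :=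
    (hFIN ι f).subset fun p hp => ⟨hp.1, hp.2.1⟩
  set B : Finset (ι → ℂ) := hfin.toFinset with hB
  have hBmem : ∀ p, p ∈ B ↔ p ∈ SP.Crit0 f ∧ NdAt f p := fun p => by
    rw [hB, Set.Finite.mem_toFinset]
    rfl
  -- the models
  have hmod : ∀ p ∈ B, Nonempty (Mdl f p) := by
    intro p hp
    obtain ⟨κ, h1, h2, w, a, h3, h4, h5, h6, h7⟩ := hGEO ι f p hf ((hBmem p).1 hp).1
      ((hBmem p).1 hp).2
    exact ⟨⟨κ, h1, h2, w, a, h3, h4, h5, h6, h7⟩⟩
  let M : ∀ b : B, Mdl f (b : ι → ℂ) := fun b => (hmod b b.2).some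
  -- heights and the triangulations
  have hdat : ∀ b : B, ∃ V : RatFunc ℚ,
      SmL (Fintype.card ι) (fun d m => E.val (jetSet
        (@poly ι (M b).κ _ (M b).fin (M b).w (M b).a) d m)) ∧
      (∀ᶠ s : ℕ in atTop, Tendsto (zL (Fintype.card ι) (fun d m => E.val (jetSet
        (@poly ι (M b).κ _ (M b).fin (M b).w (M b).a) d m)) e s) (𝓝[>] 1)
        (𝓝 (((V.eval (RingHom.id ℚ) (s : ℚ) : ℚ) : ℝ)))) ∧
      ∀ s : ℂ, (∀ z : ℤ, s ≠ z) → Polynomial.aeval s V.denom = 0 →
        IsEigenvalue f (Complex.exp (2 * Real.pi * Complex.I * s)) := by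
    intro b
    letI := (M b).fin
    letI := (M b).dec
    haveI := (M b).ne
    obtain ⟨h, hh, hfull⟩ := stmt_FULL ι (M b).κ (M b).w (M b).inj
    obtain ⟨P, D, hTP, hD, hpole⟩ := part_II ι (M b).κ (M b).w h e (M b).inj hh he
    obtain ⟨hsm, c, hlim⟩ := hRLI E ι (M b).κ (M b).w (M b).a h e P D (M b).inj (M b).nd hh hfull
      he hTP hD
    refine ⟨_, hsm, hlim, fun s hz hs => ?_⟩
    have hs' : Polynomial.aeval s (pref e * (aeval (line ι) P / aeval (line ι) D)).denom = 0 := by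
      rcases pole_add hs with h | h
      · exact h
      · rw [RatFunc.denom_C] at h
        simp at h
    rcases pole_mul hs' with h3 | h3
    · exact absurd (by rw [pole_pref h3]; push_cast; rfl) (hz (-1))
    · obtain ⟨s₀, hs₀, hL⟩ := hpole s hz h3
      have hs₀z : ∀ z : ℤ, s₀ ≠ z := by
        intro z hz'
        apply hz z
        rw [← hs₀, hz']
        simp
      obtain ⟨β, z, hβ, hW⟩ := hPTG ι (M b).κ (M b).w (M b).a h s₀ (M b).nd (M b).crit hh hs₀z hL
      rw [← hs₀]
      exact hEIG ι f _ _ s₀ β z (M b).ctt hβ hs₀z hW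
  choose V hV1 hV2 hV3 using hdat
  -- gluing
  have hGd : C9.Gd f (SP.Crit0 f \ B) := by
    refine hCOM ι f B hf (fun p hp => ((hBmem p).1 hp).2.1) fun p hp => ?_
    rcases hc p hp with h | h | h
    · exact Or.inr (Or.inl h)
    · exact Or.inr (Or.inr h)
    · exact Or.inl ((hBmem p).2 ⟨hp, h⟩)
  let G : (ι → ℂ) → MvPolynomial ι ℂ := fun p => if hp : p ∈ B then
    @poly ι (M ⟨p, hp⟩).κ _ (M ⟨p, hp⟩).fin (M ⟨p, hp⟩).w (M ⟨p, hp⟩).a else 0
  have hG : ∀ b : B, G b = @poly ι (M b).κ _ (M b).fin (M b).w (M b).a := fun b => by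
    simp only [G]
    rw [dif_pos b.2]
  have hdec := hDEC E.toHodgeMeasure ι f B G (fun p hp => ((hBmem p).1 hp).1) (by
    intro p hp
    have h1 := hG ⟨p, hp⟩
    simp only at h1
    rw [h1]
    exact ⟨(M ⟨p, hp⟩).ctt, (M ⟨p, hp⟩).crit⟩) hGd
  obtain ⟨W, hW1, hW2⟩ := hGLU E.toHodgeMeasure ι B f e R ({1} ∪ C9.EV f)
    (fun b d m => E.val (jetSet (G b) d m)) V he hR (by
      intro d hd
      have hd1 : 1 ≤ d := Nat.pos_of_mem_divisors hd
      have h1 := hdec d hd1
      have h2 : (fun m => PowerSeries.coeff m (zetaSer1 E.toHodgeMeasure.rat (RatFunc.X)⁻¹ f d) -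
          ∑ b : B, if m = 0 then 0 else toRat (E.val (jetSet (G b) d m)) *
            (RatFunc.X)⁻¹ ^ (m * Fintype.card ι)) =
          fun m => PowerSeries.coeff m (zetaSer1 E.toHodgeMeasure.rat (RatFunc.X)⁻¹ f d) -
            ∑ p ∈ B, PowerSeries.coeff m (zetaSer1 E.toHodgeMeasure.rat (RatFunc.X)⁻¹ (G p) d) := by
        funext m
        congr 1
        rw [← Finset.sum_coe_sort B]
        refine Finset.sum_congr rfl fun b _ => ?_
        rw [zetaSer1, PowerSeries.coeff_mk]
        rfl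
      rw [h2]
      exact h1)
    (fun b => by
      have h1 := hV1 b
      rw [← hG b] at h1
      exact h1)
    (fun b => by
      have h1 := hV2 b
      rw [← hG b] at h1
      exact h1)
  -- the poles
  intro s hs
  by_cases hz : ∃ z : ℤ, s = z
  · obtain ⟨z, rfl⟩ := hz
    exact eig_z f hf z
  push Not at hz
  have htot : ((e.totient : ℚ)) ≠ 0 := by exact_mod_cast (Nat.totient_pos.2 he).ne'
  have h1 : Polynomial.aeval s (RatFunc.C (e.totient : ℚ) * R).denom = 0 :=
    SSAux.pole_C_mul htot hs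
  rw [hW2] at h1
  rcases pole_add h1 with h2 | h2
  · obtain ⟨r, hr, rfl⟩ := hW1 s h2
    rcases hr with hr | hr
    · rw [Set.mem_singleton_iff] at hr
      subst hr
      exact absurd (by push_cast; rfl) (hz (-1))
    · exact hr.2
  · obtain ⟨b, hb⟩ := pole_sum V s h2
    exact hV3 b s hz hb

end Pool.Agent.Mono.NP
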