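import Pool.Agent.Work.Monodromy.Interface14
import Pool.Agent.Work.Monodromy8.CHX

/-! Block CMP14 (helper40): composition of coordinates. -/

set_option autoImplicit false

namespace Pool.Agent.Mono.NP

open MvPolynomial

namespace CMP14Aux

variable {ι : Type} [Fintype ι] [DecidableEq ι]

/-- composition of coordinates at `p` with coordinates at the origin -/
theorem isCo_comp (p : ι → ℂ) (φ ψ : ι → MvPolynomial ι ℂ) (hφ : SP.IsCo p φ)
    (hψ : SP.IsCo (fun _ => 0) ψ) : SP.IsCo p (fun a => bind₁ ψ (φ a)) := by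
  obtain ⟨hφ0, hφ1⟩ := hφ
  obtain ⟨hψ0, hψ1⟩ := hψ
  refine ⟨fun a => ?_, ?_⟩
  · rw [SP.CHX.eval_bind]
    simp only [hψ0]
    exact hφ0 a
  · have h2 : (Matrix.of fun a b => eval (fun _ => (0 : ℂ)) (pderiv b (bind₁ ψ (φ a)))) =
        (Matrix.of fun a b => eval (fun _ => (0 : ℂ)) (pderiv b (φ a))) *
        (Matrix.of fun a b => eval (fun _ => (0 : ℂ)) (pderiv b (ψ a))) := by
      ext a b
      rw [Matrix.mul_apply, Matrix.of_apply, SP.CHX.chain, map_sum]
      refine Finset.sum_congr rfl fun c _ => ?_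
      rw [map_mul, SP.CHX.eval_bind, Matrix.of_apply, Matrix.of_apply]
      simp only [hψ0]
    rw [h2, Matrix.det_mul]
    exact mul_ne_zero hφ1 hψ1

end CMP14Aux

theorem stmt_CMP14 : Stmt_CMP14 := by
  intro ι _ _ f p φ G hφ hG k
  obtain ⟨ψ, U, hψ, hU, hk⟩ := hG k
  refine ⟨fun a => bind₁ ψ (φ a), U, CMP14Aux.isCo_comp p φ ψ hφ hψ, hU, ?_⟩
  rw [bind₁_bind₁] at hk
  exact hk

end Pool.Agent.Mono.NP
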