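import Pool.Agent.Work.Monodromy.Interface14
import Pool.Agent.Work.Monodromy8.MAIN8
import Pool.Agent.Work.Monodromy9.STP9

/-! MONODROMY, phase 14, block COM14: the critical points outside of a finite set of isolated
points (helper7; adaptation of STP9, helper60, and COMM9, helper94). -/

set_option autoImplicit false
set_option linter.unusedSectionVars false

namespace Pool.Agent.Mono.NP

open MvPolynomial

namespace COM14Aux

open SP.MAIN8Aux C9.STP9Aux

variable {ι : Type} [Fintype ι] [DecidableEq ι]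

theorem gd_union (f : MvPolynomial ι ℂ) {S T : Set (ι → ℂ)} (hS : Constructible S)
    (hT : Constructible T) (hd : Disjoint S T) (h1 : C9.Gd f S) (h2 : C9.Gd f T) :
    C9.Gd f (S ∪ T) := by
  intro P E _ Q hQ
  have e : ∀ m, vol P.rat TS.xq (SP.ZL f (S ∪ T) Q m) =
      vol P.rat TS.xq (SP.ZL f S Q m) + vol P.rat TS.xq (SP.ZL f T Q m) :=
    fun m => vol_ZL P f hS hT hd hQ.1 m
  simp only [e]
  exact TS.stmt_Q1.2.1 _ _ _ (h1 P E Q hQ) (h2 P E Q hQ)

/-- split a constructible set along a polynomial -/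
theorem gd_split (f a : MvPolynomial ι ℂ) {S : Set (ι → ℂ)} (hS : Constructible S)
    (h1 : C9.Gd f (S ∩ {q | eval q a = 0})) (h2 : C9.Gd f (S ∩ {q | eval q a = 0}ᶜ)) :
    C9.Gd f S := by
  have e : S = (S ∩ {q | eval q a = 0}) ∪ (S ∩ {q | eval q a = 0}ᶜ) := by
    rw [← Set.inter_union_distrib_left, Set.union_compl_self, Set.inter_univ]
  have hz : Constructible {q : ι → ℂ | eval q a = 0} := Constructible.zero _
  rw [e]
  refine gd_union f (hS.inter hz) (hS.inter hz.compl) ?_ h1 h2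
  rw [Set.disjoint_left]
  exact fun p hp hp' => hp'.2 hp.2

theorem vanish_sup (J : Ideal (MvPolynomial ι ℂ)) (a : MvPolynomial ι ℂ) (q : ι → ℂ)
    (hJ : ∀ g ∈ J, eval q g = 0) (ha : eval q a = 0) :
    ∀ g ∈ J ⊔ Ideal.span {a}, eval q g = 0 := by
  intro g hg
  have h : J ⊔ Ideal.span {a} ≤ RingHom.ker (eval q) := by
    refine sup_le (fun x hx => hJ x hx) ?_
    rw [Ideal.span_le]
    intro x hx
    rw [Set.mem_singleton_iff.1 hx]
    exact ha
  exact h hg

theorem main (f : MvPolynomial ι ℂ) (B : Set (ι → ℂ))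
    (h : ∀ I : Ideal (MvPolynomial ι ℂ), I.IsPrime → f ∈ I → (∀ a, pderiv a f ∈ I) →
      ∃ s, s ∉ I ∧ ∀ S : Set (ι → ℂ), Constructible S → (∀ q ∈ S, q ∉ B) →
        (∀ q ∈ S, (∀ g ∈ I, eval q g = 0) ∧ eval q s ≠ 0) → C9.Gd f S) :
    ∀ J : Ideal (MvPolynomial ι ℂ), f ∈ J → (∀ a, pderiv a f ∈ J) →
      ∀ S : Set (ι → ℂ), Constructible S → (∀ q ∈ S, q ∉ B) →
        (∀ q ∈ S, ∀ g ∈ J, eval q g = 0) → C9.Gd f S := by
  intro J
  induction J using IsNoetherian.induction with
  | hgt J ih =>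
    intro hf hd S hS hB hv
    -- one polynomial outside of J: the part in its zero set is good
    have step : ∀ a, a ∉ J → C9.Gd f (S ∩ {q | eval q a = 0}) := by
      intro a ha
      refine ih (J ⊔ Ideal.span {a}) ?_ (Ideal.mem_sup_left hf) (fun b => Ideal.mem_sup_left (hd b))
        _ (hS.inter (Constructible.zero _)) (fun q hq => hB q hq.1) ?_
      · refine lt_of_le_of_ne le_sup_left ?_
        intro e
        apply ha
        rw [e]
        exact Ideal.mem_sup_right (Ideal.mem_span_singleton_self a)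
      · rintro q ⟨hq, hqa⟩
        exact vanish_sup J a q (hv q hq) hqa
    by_cases hp : Ideal.IsPrime J
    · obtain ⟨s, hs, hgd⟩ := h J hp hf hd
      refine gd_split f s hS (step s hs) ?_
      refine hgd _ (hS.inter (Constructible.zero _).compl) (fun q hq => hB q hq.1) ?_
      rintro q ⟨hq, hqs⟩
      exact ⟨hv q hq, hqs⟩
    · rw [Ideal.isPrime_iff] at hp
      by_cases ht : J = ⊤
      · have e : S = ∅ := by
          ext q
          simp only [Set.mem_empty_iff_false, iff_false]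
          intro hq
          have := hv q hq 1 (by rw [ht]; trivial)
          rw [map_one] at this
          exact one_ne_zero this
        rw [e]
        exact gd_empty f
      · have : ∃ a b, a * b ∈ J ∧ a ∉ J ∧ b ∉ J := by
          by_contra hcon
          apply hp
          refine ⟨ht, ?_⟩
          intro a b hab
          by_contra h2
          rw [not_or] at h2
          exact hcon ⟨a, b, hab, h2.1, h2.2⟩
        obtain ⟨a, b, hab, ha, hb⟩ := this
        refine gd_split f a hS (step a ha) ?_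
        -- the rest lies in V(b)
        have e : S ∩ {q | eval q a = 0}ᶜ = (S ∩ {q | eval q b = 0}) ∩ {q | eval q a = 0}ᶜ := by
          ext q
          constructor
          · rintro ⟨hq, hqa⟩
            refine ⟨⟨hq, ?_⟩, hqa⟩
            have := hv q hq _ hab
            rw [map_mul] at this
            rcases mul_eq_zero.1 this with h1 | h1
            · exact absurd h1 hqa
            · exact h1
          · rintro ⟨⟨hq, -⟩, hqa⟩
            exact ⟨hq, hqa⟩
        rw [e]
        refine ih (J ⊔ Ideal.span {b}) ?_ (Ideal.mem_sup_left hf)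
          (fun c => Ideal.mem_sup_left (hd c)) _
          ((hS.inter (Constructible.zero _)).inter (Constructible.zero _).compl)
          (fun q hq => hB q hq.1.1) ?_
        · refine lt_of_le_of_ne le_sup_left ?_
          intro e
          apply hb
          rw [e]
          exact Ideal.mem_sup_right (Ideal.mem_span_singleton_self b)
        · rintro q ⟨⟨hq, hqb⟩, -⟩
          exact vanish_sup J b q (hv q hq) hqb

/-- if `V(I)` contains an isolated point of `V(f, df)` then `I` is maximal -/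
theorem max_iso {f : MvPolynomial ι ℂ} {I : Ideal (MvPolynomial ι ℂ)} (hI : I.IsPrime)
    (hf : f ∈ I) (hd : ∀ a, pderiv a f ∈ I) (q s) (hq : ∀ g ∈ I, eval q g = 0)
    (hs : eval q s ≠ 0) (hiso : ∀ x ∈ SP.Crit0 f, eval x s ≠ 0 → x = q) : I.IsMaximal := by
  refine max_of hI q fun a => ?_
  by_contra hc
  have hsI : s ∉ I := fun h => hs (hq s h)
  have h1 : s * (X a - C (q a)) ∉ I := fun h => (hI.mem_or_mem h).elim hsI hc
  obtain ⟨x, hx, hne⟩ := nss hI h1
  rw [map_mul] at hne
  have h2 := hiso x ⟨hx f hf, fun a => hx _ (hd a)⟩ (left_ne_zero_of_mul hne)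
  apply right_ne_zero_of_mul hne
  rw [h2, map_sub, eval_X, eval_C, sub_self]

/-- STP9 with the isolated points of `B` removed -/
theorem stp (hRNK : C9.Stmt_RNK9) (hGEN : C9.Stmt_GEN9) (hVGG : C9.Stmt_VGG9)
    (hSPC : C9.Stmt_SPC9) (f : MvPolynomial ι ℂ) (B : Set (ι → ℂ)) (htd : f.totalDegree ≠ 0)
    (hB : ∀ p ∈ B, Iso0 f p)
    (hcor : ∀ p ∈ SP.Crit0 f, p ∈ B ∨ Fintype.card ι ≤ (SP.Hs f p).rank + 2 ∨
      ∃ r, RO.SQAt f p r)
    (I : Ideal (MvPolynomial ι ℂ)) (hI : I.IsPrime) (hf : f ∈ I) (hd : ∀ a, pderiv a f ∈ I) :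
    ∃ s, s ∉ I ∧ ∀ S : Set (ι → ℂ), Constructible S → (∀ q ∈ S, q ∉ B) →
      (∀ q ∈ S, (∀ g ∈ I, eval q g = 0) ∧ eval q s ≠ 0) → C9.Gd f S := by
  have hcrit : ∀ q : ι → ℂ, (∀ g ∈ I, eval q g = 0) → q ∈ SP.Crit0 f :=
    fun q hq => ⟨hq f hf, fun a => hq _ (hd a)⟩
  have hone : (1 : MvPolynomial ι ℂ) ∉ I := (Ideal.ne_top_iff_one I).1 hI.ne_top
  by_cases hmax : I.IsMaximal
  · -- one point
    obtain ⟨p, hp⟩ := maxi hmax
    have hpc : p ∈ SP.Crit0 f := hcrit p fun g hg => (hp g).1 hg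
    have hSp : ∀ S : Set (ι → ℂ), (∀ q ∈ S, (∀ g ∈ I, eval q g = 0) ∧
        eval q (1 : MvPolynomial ι ℂ) ≠ 0) → ∀ q ∈ S, q = p := by
      intro S hS q hq
      funext a
      have h1 := (hS q hq).1 (X a - C (p a)) ((hp _).2 (by rw [map_sub, eval_X, eval_C, sub_self]))
      rwa [map_sub, eval_X, eval_C, sub_eq_zero] at h1
    rcases hcor p hpc with hpB | hrk | ⟨r, hSQ⟩
    · refine ⟨1, hone, fun S _ hSB hS => ?_⟩
      have e : S = ∅ := by
        ext q
        simp only [Set.mem_empty_iff_false, iff_false]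
        intro hq
        have h1 := hSp S hS q hq
        exact hSB q hq (h1 ▸ hpB)
      rw [e]
      exact gd_empty f
    · obtain ⟨Z, hZ, h2, h3⟩ := hRNK ι f I hI hd
      have hdt : eval p (C9.dt f Z) ≠ 0 := fun h => hZ ((hp _).2 h)
      have h4 := h3 p (fun g hg => (hp g).1 hg) hdt
      have h5 : Zᶜ.card ≤ 2 := by
        rw [Finset.card_compl]
        omega
      by_cases h6 : (∀ L : List ι, C9.wd f Z L ∈ I) ∨ Zᶜ.card ≤ 1
      · have h7 : (∀ L : List ι, C9.wd f Z L ∈ I) ∨ (Zᶜ.card ≤ 2 ∧ (Zᶜ.card = 2 → ¬ I.IsMaximal)) := by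
          rcases h6 with h6 | h6
          · exact Or.inl h6
          · exact Or.inr ⟨h5, fun h7 => by omega⟩
        obtain ⟨s, hs, hgd⟩ := generic hGEN hVGG f htd I hI hf hd Z hZ h2 h7
        exact ⟨s, hs, fun S hS _ => hgd S hS⟩
      · push Not at h6
        obtain ⟨⟨L, hL⟩, h7⟩ := h6
        have h8 : C9.Gd f {p} := hSPC ι f Z p htd hpc (by omega) hdt ⟨L, fun h => hL ((hp _).2 h)⟩
        exact ⟨1, hone, fun S _ _ hS => gd_sub h8 S (hSp S hS)⟩
    · exact ⟨1, hone, fun S _ _ hS => gd_sub (gd_sq f htd p hpc r hSQ) S (hSp S hS)⟩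
  · -- all points of `V(I)` have corank at most two
    have hrk : ∀ q : ι → ℂ, (∀ g ∈ I, eval q g = 0) →
        Fintype.card ι ≤ (SP.Hs f q).rank + 2 := by
      intro q hq
      rcases hcor q (hcrit q hq) with hqB | h | ⟨r, hSQ⟩
      · exfalso
        obtain ⟨s, hs, hiso⟩ := hB q hqB
        exact hmax (max_iso hI hf hd q s hq hs hiso)
      · exact h
      · exfalso
        obtain ⟨s, hs, hiso⟩ := SP.stmt_ISO8 ι f q r (hcrit q hq).2 hSQ
        exact hmax (max_iso hI hf hd q s hq hs fun x hx => hiso x hx.2)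
    obtain ⟨Z, hZ, h2, h3⟩ := hRNK ι f I hI hd
    obtain ⟨q, hq, hqZ⟩ := nss hI hZ
    have h4 := h3 q hq hqZ
    have h5 := hrk q hq
    obtain ⟨s, hs, hgd⟩ := generic hGEN hVGG f htd I hI hf hd Z hZ h2
      (Or.inr ⟨by rw [Finset.card_compl]; omega, fun _ => hmax⟩)
    exact ⟨s, hs, fun S hS _ => hgd S hS⟩

end COM14Aux

open COM14Aux in
/-- **COM14** -/
theorem stmt_COM14 (hRNK : C9.Stmt_RNK9) (hGEN : C9.Stmt_GEN9) (hVGG : C9.Stmt_VGG9)
    (hSPC : C9.Stmt_SPC9) : Stmt_COM14 := by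
  intro ι _ _ f B htd hB hcor
  have hfin : Constructible ((B : Set (ι → ℂ))) := SP.MAIN8Aux.con_fin B.finite_toSet
  have hcon : Constructible (SP.Crit0 f \ (B : Set (ι → ℂ))) := by
    rw [Set.sdiff_eq]
    exact (SP.MAIN8Aux.con_crit f).inter hfin.compl
  refine main f (B : Set (ι → ℂ)) (stp hRNK hGEN hVGG hSPC f (B : Set (ι → ℂ)) htd
    (fun p hp => hB p (by simpa using hp)) (fun p hp => by simpa using hcor p hp))
    (Ideal.span (insert f (Set.range fun a => pderiv a f)))
    (Ideal.subset_span (Set.mem_insert _ _))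
    (fun a => Ideal.subset_span (Set.mem_insert_of_mem _ ⟨a, rfl⟩)) _ hcon
    (fun q hq => hq.2) ?_
  rintro q ⟨⟨h0, h1⟩, -⟩ g hg
  have hle : Ideal.span (insert f (Set.range fun a => pderiv a f)) ≤ RingHom.ker (eval q) := by
    rw [Ideal.span_le]
    rintro x (rfl | ⟨a, rfl⟩)
    · exact h0
    · exact h1 a
  exact hle hg

end Pool.Agent.Mono.NP
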