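import Pool.Agent.Work.Monodromy.Interface14

/-!
# CRG14: the only singular point of `H + ∑ c_i x_i^M` is the origin (helper73)
-/

set_option autoImplicit false

namespace Pool.Agent.Mono.NP

open MvPolynomial

namespace CRG14Aux

variable {ι κ : Type} [Fintype ι] [Fintype κ]

theorem eval_poly (w : κ → ι → ℕ) (a : κ → ℂ) (x : ι → ℂ) :
    eval x (poly w a) = ∑ v, a v * ∏ i, x i ^ w v i := by
  unfold poly
  rw [map_sum]
  refine Finset.sum_congr rfl fun v _ => ?_
  rw [map_mul, eval_C, map_prod]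
  simp only [map_pow, eval_X]

theorem mon_eq (m : ι → ℕ) :
    (∏ i, (X i : MvPolynomial ι ℂ) ^ m i) = monomial (Finsupp.equivFunOnFinite.symm m) 1 := by
  rw [monomial_eq, C_1, one_mul, Finsupp.prod_fintype _ _ fun i => pow_zero _]
  rfl

theorem mul_eval_pderiv (w : κ → ι → ℕ) (a : κ → ℂ) (x : ι → ℂ) (i : ι) :
    x i * eval x (pderiv i (poly w a)) = ∑ v, (w v i : ℂ) * (a v * ∏ i', x i' ^ w v i') := by
  have h1 : x i * eval x (pderiv i (poly w a)) = eval x (X i * pderiv i (poly w a)) := by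
    rw [map_mul, eval_X]
  rw [h1]
  unfold poly
  rw [map_sum, Finset.mul_sum, map_sum]
  refine Finset.sum_congr rfl fun v _ => ?_
  rw [pderiv_C_mul, mul_left_comm, mon_eq, X_mul_pderiv_monomial, map_mul, eval_C, nsmul_eq_mul,
    map_mul, map_natCast, ← mon_eq, map_prod]
  simp only [map_pow, eval_X]
  show a v * ((w v i : ℂ) * _) = _
  ring

end CRG14Aux

open CRG14Aux in
theorem stmt_CRG14 : Stmt_CRG14 := by
  intro ι κ _ _ _ _ w a M hM hnd hax x hx
  rw [Set.mem_singleton_iff]
  by_contra hne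
  obtain ⟨i₀, hi₀⟩ : ∃ i, x i ≠ 0 := by
    by_contra hcon
    push Not at hcon
    exact hne (funext hcon)
  classical
  set F : Finset κ := Finset.univ.filter fun v => ∀ i, x i = 0 → w v i = 0 with hF
  have hFne : F.Nonempty := by
    obtain ⟨v, _, hv⟩ := hax i₀
    refine ⟨v, ?_⟩
    rw [hF, Finset.mem_filter]
    refine ⟨Finset.mem_univ _, fun i hi => hv i ?_⟩
    rintro rfl
    exact hi₀ hi
  have hmem : ∀ v, v ∈ F ↔ ∀ i, x i = 0 → w v i = 0 := fun v => by
    rw [hF, Finset.mem_filter]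
    simp
  have hface : Fce w F := by
    intro m _ hm hpos v hv
    have hv' : ∃ i, x i = 0 ∧ w v i ≠ 0 := by
      by_contra hcon
      push Not at hcon
      exact hv ((hmem v).2 hcon)
    obtain ⟨i, hi, hwi⟩ := hv'
    have hnn : ∀ u ∈ Finset.univ, 0 ≤ m u * (w u i : ℚ) := by
      intro u _
      by_cases hu : u ∈ F
      · rw [(hmem u).1 hu i hi]
        simp
      · exact mul_nonneg (hpos u hu) (by positivity)
    have := (Finset.sum_eq_zero_iff_of_nonneg hnn).1 (hm i) v (Finset.mem_univ _)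
    rcases mul_eq_zero.1 this with h | h
    · exact h
    · exact absurd (by exact_mod_cast h) hwi
  set x' : ι → ℂ := fun i => if x i = 0 then 1 else x i with hx'
  have hx'0 : ∀ i, x' i ≠ 0 := by
    intro i
    rw [hx']
    dsimp only
    split_ifs with h
    · exact one_ne_zero
    · exact h
  have hprod : ∀ v ∈ F, ∏ i, x' i ^ w v i = ∏ i, x i ^ w v i := by
    intro v hv
    refine Finset.prod_congr rfl fun i _ => ?_
    rw [hx']
    dsimp only
    split_ifs with h
    · rw [(hmem v).1 hv i h, pow_zero, pow_zero]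
    · rfl
  have hprod0 : ∀ v, v ∉ F → ∏ i, x i ^ w v i = 0 := by
    intro v hv
    have hv' : ∃ i, x i = 0 ∧ w v i ≠ 0 := by
      by_contra hcon
      push Not at hcon
      exact hv ((hmem v).2 hcon)
    obtain ⟨i, hi, hwi⟩ := hv'
    refine Finset.prod_eq_zero (Finset.mem_univ i) ?_
    rw [hi, zero_pow hwi]
  have hsum : ∀ g : κ → ℂ, ∑ v ∈ F, g v * ∏ i, x' i ^ w v i = ∑ v, g v * ∏ i, x i ^ w v i := by
    intro g
    rw [← Finset.sum_subset (Finset.subset_univ F)]
    · exact Finset.sum_congr rfl fun v hv => by rw [hprod v hv]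
    · intro v _ hv
      rw [hprod0 v hv, mul_zero]
  obtain ⟨i, hi⟩ := hnd F hFne hface x' hx'0 (by rw [hsum a, ← eval_poly]; exact hx.1)
  apply hi
  have := mul_eval_pderiv w a x i
  rw [hx.2 i, mul_zero] at this
  rw [this]
  have h2 := hsum fun v => (w v i : ℂ) * a v
  simp only [mul_assoc] at h2
  exact h2

end Pool.Agent.Mono.NP
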