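import Pool.Agent.Work.Monodromy.Interface14
import Pool.Agent.Work.Monodromy9.POL9

/-!
# Phase 14, block DEC14 (helper10): the zeta function minus those of the models of the isolated points
-/

set_option autoImplicit false

namespace Pool.Agent.Mono.NP

open MvPolynomial TS RO SP PC C9

namespace DEC14Aux

open SP.MAIN8Aux SP.POL8Aux C9.POL9Aux

variable {ι : Type} [Fintype ι] [DecidableEq ι]

omit [Fintype ι] [DecidableEq ι] in
theorem pderiv_sq (p : ι → ℂ) {g : MvPolynomial ι ℂ} (hg : g ∈ mI p ^ 2) (b : ι) :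
    eval p (pderiv b g) = 0 := by
  rw [pow_two] at hg
  refine Submodule.mul_induction_on hg ?_ ?_
  · intro u hu v hv
    rw [mI, RingHom.mem_ker] at hu hv
    rw [Derivation.leibniz]
    simp [hu, hv]
  · intro x y hx hy
    rw [map_add, map_add, hx, hy, add_zero]

/-- the origin is a critical point of the model -/
theorem crit_model (f : MvPolynomial ι ℂ) (p : ι → ℂ) (G : MvPolynomial ι ℂ)
    (hp : p ∈ Crit0 f) (h : Ctt9 f p G) : (fun _ => (0 : ℂ)) ∈ Crit0 G := by
  obtain ⟨φ, U, hφ, hU, hm⟩ := h 2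
  have hz : ∀ g : MvPolynomial ι ℂ, eval (fun _ => (0 : ℂ)) (bind₁ φ g) = eval p g := by
    intro g
    have h1 : eval (fun _ => (0 : ℂ)) (bind₁ φ g) =
        eval (fun j => eval (fun _ => (0 : ℂ)) (φ j)) g :=
      eval₂Hom_bind₁ (RingHom.id ℂ) (fun _ => (0 : ℂ)) φ g
    rw [h1]
    have h2 : (fun j => eval (fun _ => (0 : ℂ)) (φ j)) = p := funext fun j => hφ.1 j
    rw [h2]
  have hmz : ∀ g : MvPolynomial ι ℂ, g ∈ mI (fun _ : ι => (0 : ℂ)) ^ 2 →
      eval (fun _ => (0 : ℂ)) g = 0 := by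
    intro g hg
    have h1 := Ideal.pow_le_self (I := mI (fun _ : ι => (0 : ℂ))) (n := 2) (by norm_num) hg
    rwa [mI, RingHom.mem_ker] at h1
  have h0 : eval (fun _ => (0 : ℂ)) G = 0 := by
    have h1 := hmz _ hm
    rw [map_sub, hz, hp.1, map_mul, hU] at h1
    linear_combination -h1
  refine ⟨h0, fun a => ?_⟩
  have h1 := pderiv_sq _ hm a
  rw [map_sub, map_sub, Derivation.leibniz, map_add, smul_eq_mul, smul_eq_mul, map_mul, map_mul,
    hU, h0, pderiv_algHom, map_sum] at h1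
  have h2 : ∀ j ∈ (Finset.univ : Finset ι), eval (fun _ => (0 : ℂ))
      (pderiv a (bind₁ φ (X j)) * bind₁ φ (pderiv j f)) = 0 := by
    intro j _
    rw [map_mul, hz, hp.2 j, mul_zero]
  rw [Finset.sum_eq_zero h2] at h1
  linear_combination -h1

/-- removing finitely many points -/
theorem split_pts (P : HodgeMeasure) {E : Type} [Finite E] (f : MvPolynomial ι ℂ)
    {Q : Set (E ⊕ Unit → ℂ)} (hQ : QU Q) (m : ℕ) (B : Finset (ι → ℂ)) :
    (∀ p ∈ B, p ∈ Crit0 f) →
    vol P.rat xq (ZL f (Crit0 f) Q m) = vol P.rat xq (ZL f (Crit0 f \ B) Q m) +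
      ∑ p ∈ B, vol P.rat xq (ZL f {p} Q m) := by
  classical
  induction B using Finset.induction_on with
  | empty =>
    intro _
    rw [Finset.coe_empty, Set.sdiff_empty, Finset.sum_empty, add_zero]
  | insert p B hp ih =>
    intro hB
    rw [ih fun q hq => hB q (Finset.mem_insert_of_mem hq), Finset.sum_insert hp, ← add_assoc]
    congr 1
    have hc : Constructible (Crit0 f \ ((insert p B : Finset (ι → ℂ)) : Set (ι → ℂ))) := by
      rw [Set.sdiff_eq]
      exact (con_crit f).inter (con_fin (Finset.finite_toSet _)).compl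
    rw [← vol_ZL P f hc (con_point p) ?_ hQ.1 m]
    · congr 2
      ext x
      simp only [Set.mem_sdiff, Set.mem_union, Finset.coe_insert, Set.mem_insert_iff,
        Set.mem_singleton_iff, not_or, Finset.mem_coe]
      constructor
      · rintro ⟨h1, h2⟩
        by_cases hx : x = p
        · exact Or.inr hx
        · exact Or.inl ⟨h1, hx, h2⟩
      · rintro (⟨h1, -, h2⟩ | rfl)
        · exact ⟨h1, h2⟩
        · exact ⟨hB x (Finset.mem_insert_self _ _), hp⟩
    · rw [Set.disjoint_left]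
      rintro x ⟨-, hx⟩ hx'
      apply hx
      rw [Set.mem_singleton_iff] at hx'
      rw [hx']
      exact Finset.mem_coe.2 (Finset.mem_insert_self _ _)

/-- the coefficients -/
theorem coeff_eq (P : HodgeMeasure) (f : MvPolynomial ι ℂ) (d : ℕ) {α : K}
    (hα : ∀ m : ℕ, 1 ≤ m → vol P.rat xq
      (ZL f {x | eval x f = 0 ∧ ∃ a, eval x (pderiv a f) ≠ 0} (QE d) m) = α * xq ^ m)
    (m : ℕ) (hm : 1 ≤ m) :
    PowerSeries.coeff m (zetaSer1 P.rat xq f d) = P.rat.L ^ Fintype.card ι *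
      (α * xq ^ m + vol P.rat xq (ZL f (Crit0 f) (QE d) m)) := by
  have hV := (stmt_VA P ι f).2.2 d
  have h1 : PowerSeries.coeff m (zetaSer1 P.rat xq f d) =
      PowerSeries.coeff m (zetaSer P.rat xq f d) := by
    rw [zetaSer1, zetaSer, PowerSeries.coeff_mk, PowerSeries.coeff_mk, if_neg (by omega)]
  rw [h1, hV, PowerSeries.coeff_mk, TS.AA, ctc_eq, vol_split P f (QU_QE d) hα m hm]

end DEC14Aux

open DEC14Aux SP.POL8Aux

/-- block DEC14 -/
theorem stmt_DEC14 (hCTV : C9.Stmt_CTV9) : Stmt_DEC14 := by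
  classical
  intro P ι _ _ f B G hB hG hGd d hd
  obtain ⟨Qmono, Qadd, Qsc, Qfin, -⟩ := stmt_Q1
  set u : K := P.rat.L ^ Fintype.card ι with hu
  have hsm : ∀ g : MvPolynomial ι ℂ, ∃ α : K, ∀ m : ℕ, 1 ≤ m → vol P.rat xq
      (ZL g {x | eval x g = 0 ∧ ∃ a, eval x (pderiv a g) ≠ 0} (QE d) m) = α * xq ^ m :=
    fun g => stmt_SMZ8 P ι g Bool (QE d) (QU_QE d)
  choose α hα using hsm
  have E1 : ESeq ({1} ∪ EV f) fun m => u * ((α f - ∑ p ∈ B, α (G p)) * xq ^ m +
      vol P.rat xq (ZL f (Crit0 f \ B) (QE d) m)) :=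
    Qsc _ _ _ (Qadd _ _ _ (SQV8Aux.eseq_one (Or.inl rfl) _) (hGd P Bool (QE d) (QU_QE d)))
  have key : ∀ m : ℕ, 1 ≤ m → PowerSeries.coeff m (zetaSer1 P.rat xq f d) -
      ∑ p ∈ B, PowerSeries.coeff m (zetaSer1 P.rat xq (G p) d) =
      u * ((α f - ∑ p ∈ B, α (G p)) * xq ^ m +
      vol P.rat xq (ZL f (Crit0 f \ B) (QE d) m)) := by
    intro m hm
    rw [coeff_eq P f d (hα f) m hm, split_pts P f (QU_QE d) m B hB]
    have h1 : ∀ p ∈ B, PowerSeries.coeff m (zetaSer1 P.rat xq (G p) d) =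
        u * (α (G p) * xq ^ m + vol P.rat xq (ZL f {p} (QE d) m)) := by
      intro p hp
      have h2 : Crit0 (G p) = {fun _ => 0} :=
        Set.Subset.antisymm (hG p hp).2
          (Set.singleton_subset_iff.2 (crit_model f p (G p) (hB p hp) (hG p hp).1))
      rw [coeff_eq P (G p) d (hα (G p)) m hm, h2,
        hCTV ι f p (G p) (hG p hp).1 P Bool (QE d) (QU_QE d) m]
    rw [Finset.sum_congr rfl h1, ← Finset.mul_sum, Finset.sum_add_distrib, ← Finset.sum_mul]
    ring
  have F3 : ESeq ({1} ∪ EV f) fun m => if m = 0 then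
      (PowerSeries.coeff m (zetaSer1 P.rat xq f d) -
        ∑ p ∈ B, PowerSeries.coeff m (zetaSer1 P.rat xq (G p) d)) -
      u * ((α f - ∑ p ∈ B, α (G p)) * xq ^ m +
      vol P.rat xq (ZL f (Crit0 f \ B) (QE d) m)) else 0 :=
    Qfin _ _ 1 fun m hm => by rw [if_neg (by omega)]
  have h := Qadd _ _ _ E1 F3
  refine (congrArg (ESeq ({1} ∪ EV f)) (funext fun m => ?_)).mp h
  by_cases hm : m = 0
  · simp only [if_pos hm]
    show _ = PowerSeries.coeff m (zetaSer1 P.rat xq f d) -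
      ∑ p ∈ B, PowerSeries.coeff m (zetaSer1 P.rat xq (G p) d)
    ring
  · simp only [if_neg hm]
    show _ = PowerSeries.coeff m (zetaSer1 P.rat xq f d) -
      ∑ p ∈ B, PowerSeries.coeff m (zetaSer1 P.rat xq (G p) d)
    rw [add_zero, key m (by omega)]

end Pool.Agent.Mono.NP
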