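import Pool.Agent.Work.Monodromy.Interface14

/-!
# Block EIG14: the eigenvalue of `f`
-/

set_option autoImplicit false

namespace Pool.Agent.Mono.NP

open MvPolynomial Filter Topology

theorem stmt_EIG14 (hCTW : C9.Stmt_CTW9) (hW5F : C9.Stmt_W5F9) : Stmt_EIG14 := by
  intro ι _ _ f G p s₀ β z hC hβ hs₀ hP
  refine ⟨(β : ℂ), ?_, ?_⟩
  · intro b hb
    refine hW5F ι f (β : ℂ) ?_ (fun L => hCTW ι f p G hC (β : ℂ) hP L) b hb
    intro n hn
    have h1 : β = (n : ℚ) := by exact_mod_cast hn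
    apply hs₀ ((n : ℤ) - z)
    push_cast
    linarith
  · have h1 : (2 * (Real.pi : ℂ) * Complex.I * (β : ℂ)) =
        2 * (Real.pi : ℂ) * Complex.I * (s₀ : ℂ) + (z : ℂ) * (2 * (Real.pi : ℂ) * Complex.I) := by
      rw [hβ]
      push_cast
      ring
    rw [h1, Complex.exp_add, Complex.exp_int_mul_two_pi_mul_I, mul_one]

end Pool.Agent.Mono.NP
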