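import Pool.Agent.Work.Monodromy.Interface14

/-!
# FIN14: there are finitely many isolated points (helper6)
-/

set_option autoImplicit false

namespace Pool.Agent.Mono.NP

open MvPolynomial

theorem stmt_FIN14 : Stmt_FIN14 := by
  classical
  intro ι _ _ f
  set T : Set (ι → ℂ) := {p : ι → ℂ | p ∈ SP.Crit0 f ∧ Iso0 f p} with hT
  have hs : ∀ p : ι → ℂ, ∃ s : MvPolynomial ι ℂ, p ∈ T →
      eval p s ≠ 0 ∧ ∀ q ∈ SP.Crit0 f, eval q s ≠ 0 → q = p := by
    intro p
    by_cases hp : p ∈ T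
    · obtain ⟨s, h1, h2⟩ := hp.2
      exact ⟨s, fun _ => ⟨h1, h2⟩⟩
    · exact ⟨0, fun h => absurd h hp⟩
  choose s hs using hs
  have hfg : (Submodule.span (MvPolynomial ι ℂ) (s '' T)).FG := IsNoetherian.noetherian _
  obtain ⟨S', hS', hspan⟩ := Submodule.fg_span_iff_fg_span_finset_subset _ |>.mp hfg
  -- a point for every element of the finite set
  have hpt : ∀ g : MvPolynomial ι ℂ, ∃ p : ι → ℂ, g ∈ S' → p ∈ T ∧ s p = g := by
    intro g
    by_cases hg : g ∈ S'
    · obtain ⟨p, hp, hpg⟩ := hS' hg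
      exact ⟨p, fun _ => ⟨hp, hpg⟩⟩
    · exact ⟨fun _ => 0, fun h => absurd h hg⟩
  choose pt hpt using hpt
  refine Set.Finite.subset (S'.image pt).finite_toSet ?_
  intro p hp
  have h1 := (hs p hp).1
  -- some element of `S'` is not zero at `p`
  have h2 : ∃ g ∈ S', eval p g ≠ 0 := by
    by_contra hcon
    push Not at hcon
    have h3 : s p ∈ Submodule.span (MvPolynomial ι ℂ) (S' : Set (MvPolynomial ι ℂ)) := by
      rw [← hspan]
      exact Submodule.subset_span ⟨p, hp, rfl⟩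
    have h4 : Submodule.span (MvPolynomial ι ℂ) (S' : Set (MvPolynomial ι ℂ)) ≤
        RingHom.ker (eval p : MvPolynomial ι ℂ →+* ℂ) := by
      rw [Submodule.span_le]
      intro g hg
      exact hcon g hg
    exact h1 (h4 h3)
  obtain ⟨g, hg, hgp⟩ := h2
  obtain ⟨h5, h6⟩ := hpt g hg
  have h7 : p = pt g := (hs (pt g) h5).2 p hp.1 (by rw [h6]; exact hgp)
  rw [h7]
  exact Finset.mem_coe.mpr (Finset.mem_image_of_mem pt hg)

end Pool.Agent.Mono.NP
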