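import Pool.Agent.Work.Monodromy.Interface14
import Pool.Agent.Work.Monodromy12.KG12
import Pool.Agent.Work.Monodromy12.KDER12

/-! GEN14: adding generic multiples of high powers of the variables makes a polynomial which is
nondegenerate for its local Newton polyhedron nondegenerate for all faces. -/

set_option autoImplicit false

namespace Pool.Agent.Mono.NP

open MvPolynomial Cardinal

namespace GEN14Aux

variable {ι : Type} [Fintype ι] [DecidableEq ι]

/-- the exponents -/
def wG (H : MvPolynomial ι ℂ) (M : ℕ) : H.support ⊕ ι → ι → ℕ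
  | Sum.inl m => fun i => (m : ι →₀ ℕ) i
  | Sum.inr i => fun j => if j = i then M else 0

/-- the coefficients -/
noncomputable def aG (H : MvPolynomial ι ℂ) (c : ι → ℂ) : H.support ⊕ ι → ℂ
  | Sum.inl m => H.coeff m
  | Sum.inr i => c i

theorem eval_mon (m : ι →₀ ℕ) (c : ℂ) (x : ι → ℂ) :
    eval x (monomial m c) = c * ∏ i, x i ^ m i := by
  rw [eval_monomial, Finsupp.prod_fintype _ _ fun i => pow_zero _]

theorem mul_eval_pd {α : Type} (F : Finset α) (m : α → ι →₀ ℕ) (c : α → ℂ)
    (x : ι → ℂ) (i : ι) :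
    x i * eval x (pderiv i (∑ v ∈ F, monomial (m v) (c v))) =
      ∑ v ∈ F, (m v i : ℂ) * (c v * ∏ i', x i' ^ m v i') := by
  have h1 : x i * eval x (pderiv i (∑ v ∈ F, monomial (m v) (c v))) =
      eval x (X i * pderiv i (∑ v ∈ F, monomial (m v) (c v))) := by
    rw [map_mul, eval_X]
  rw [h1, map_sum, Finset.mul_sum, map_sum]
  refine Finset.sum_congr rfl fun v _ => ?_
  rw [X_mul_pderiv_monomial, map_nsmul, eval_mon, nsmul_eq_mul]

theorem prod_inr (H : MvPolynomial ι ℂ) (M : ℕ) (i : ι) {R : Type} [CommSemiring R] (x : ι → R) :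
    ∏ j, x j ^ wG H M (Sum.inr i) j = x i ^ M := by
  rw [Finset.prod_eq_single i]
  · simp [wG]
  · intro j _ hj
    simp [wG, hj]
  · intro h
    exact absurd (Finset.mem_univ i) h

theorem sum_inr (H : MvPolynomial ι ℂ) (M : ℕ) (i : ι) (k : ι → ℤ) :
    ∑ j, k j * (wG H M (Sum.inr i) j : ℤ) = k i * M := by
  rw [Finset.sum_eq_single i]
  · simp [wG]
  · intro j _ hj
    simp [wG, hj]
  · intro h
    exact absurd (Finset.mem_univ i) h

theorem poly_eq (H : MvPolynomial ι ℂ) (M : ℕ) (c : ι → ℂ) :
    poly (wG H M) (aG H c) = H + ∑ i, C (c i) * X i ^ M := by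
  classical
  unfold poly
  rw [Fintype.sum_sum_type]
  congr 1
  · have h1 : ∀ m : H.support, C (aG H c (Sum.inl m)) * ∏ i, X i ^ wG H M (Sum.inl m) i =
        (monomial (m : ι →₀ ℕ) (H.coeff m) : MvPolynomial ι ℂ) := by
      intro m
      rw [monomial_eq, Finsupp.prod_fintype _ _ fun i => pow_zero _]
      rfl
    rw [Finset.sum_congr rfl fun m _ => h1 m]
    rw [Finset.sum_coe_sort H.support (fun m => (monomial m (H.coeff m) : MvPolynomial ι ℂ))]
    exact H.support_sum_monomial_coeff
  · refine Finset.sum_congr rfl fun i _ => ?_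
    rw [prod_inr]
    rfl

/-- a derivation of a power -/
theorem der_pow {k L : Type} [Field k] [Field L] [Algebra k L] (D : Derivation k L L) {y : L}
    (hy : y ≠ 0) (n : ℕ) : D (y ^ n) = y ^ n * ((n : L) * (D y / y)) := by
  rw [Derivation.leibniz_pow]
  cases n with
  | zero => simp
  | succ n =>
    simp only [Nat.add_sub_cancel, smul_eq_mul, nsmul_eq_mul]
    field_simp
    ring

/-- a derivation of a monomial -/
theorem der_prod {k L : Type} [Field k] [Field L] [Algebra k L] (D : Derivation k L L) {α : Type}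
    (x : α → L) (hx : ∀ i, x i ≠ 0) (n : α → ℕ) (s : Finset α) : D (∏ i ∈ s, x i ^ n i) =
      (∏ i ∈ s, x i ^ n i) * ∑ i ∈ s, (n i : L) * (D (x i) / x i) := by
  classical
  induction s using Finset.induction_on with
  | empty => simp
  | insert j s hj ih =>
    rw [Finset.prod_insert hj, Finset.sum_insert hj, Derivation.leibniz, ih, der_pow D (hx j)]
    simp only [smul_eq_mul]
    ring

/-- the exponents are different -/
theorem wG_inj (H : MvPolynomial ι ℂ) (M : ℕ) (hM : H.totalDegree < M) :
    Function.Injective (wG H M) := by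
  have hdeg : ∀ m : H.support, ∀ i, (m : ι →₀ ℕ) i < M := by
    intro m i
    have h1 : (m : ι →₀ ℕ) i ≤ (m : ι →₀ ℕ).degree := Finsupp.le_degree i _
    have h2 : (m : ι →₀ ℕ).degree ≤ H.totalDegree := by
      have := le_totalDegree m.2
      rwa [Finsupp.sum_fintype _ _ (fun _ => rfl), ← Finsupp.degree_eq_sum] at this
    omega
  rintro (m | i) (m' | j) h
  · congr 1
    apply Subtype.ext
    ext l
    exact congrFun h l
  · exfalso
    have h1 := congrFun h j
    have h2 := hdeg m j
    simp [wG] at h1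
    omega
  · exfalso
    have h1 := congrFun h i
    have h2 := hdeg m' i
    simp [wG] at h1
    omega
  · congr 1
    by_contra hij
    have h1 := congrFun h i
    simp [wG, hij] at h1
    omega

end GEN14Aux

open GEN14Aux in
theorem stmt_GEN14 (hFACE : Stmt_FACE) : Stmt_GEN14 := by
  classical
  intro ι _ _ _ H hH hNd M₀
  let K : Subfield ℂ := Subfield.closure (H.coeff '' (H.support : Set (ι →₀ ℕ)))
  have hK : #K ≤ ℵ₀ := by
    refine (Subfield.cardinalMk_closure_le_max _).trans (max_le ?_ le_rfl)
    exact ((Finset.finite_toSet H.support).image _).countable.le_aleph0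
  obtain ⟨c, hc⟩ := KGAux.exists_indep ι K hK
  obtain ⟨D, hD⟩ := stmt_KDER K ℂ ι c hc
  have hcoef : ∀ (i : ι) (m : H.support), D i (H.coeff m) = 0 := by
    intro i m
    have h1 : H.coeff m ∈ K := Subfield.subset_closure ⟨m, m.2, rfl⟩
    exact (D i).map_algebraMap ⟨H.coeff m, h1⟩
  let M : ℕ := M₀ + H.totalDegree + 1
  have hM1 : H.totalDegree < M := by omega
  have hdeg : ∀ m ∈ H.support, ∑ i, m i ≤ H.totalDegree := by
    intro m hm
    have := le_totalDegree hm
    rwa [Finsupp.sum_fintype _ _ (fun _ => rfl)] at this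
  refine ⟨M, H.support ⊕ ι, inferInstance, inferInstance, wG H M, aG H c, by omega, by omega,
    wG_inj H M hM1, ?_, ?_, ?_⟩
  · intro F hF hface x hx h0
    by_contra hcon
    push Not at hcon
    obtain ⟨k, hk⟩ := hFACE ι (H.support ⊕ ι) (wG H M) F hF hface
    by_cases hex : ∃ i : ι, Sum.inr i ∈ F
    · obtain ⟨i, hi⟩ := hex
      have hDa : ∀ v : H.support ⊕ ι, D i (aG H c v) = if v = Sum.inr i then 1 else 0 := by
        rintro (m | j)
        · rw [if_neg (by simp)]
          exact hcoef i m
        · have h1 := hD i j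
          change D i (c j) = _
          rw [h1]
          by_cases hij : i = j
          · rw [if_pos hij, if_pos (by rw [hij])]
          · rw [if_neg hij, if_neg]
            intro h2
            exact hij (Sum.inr_injective h2).symm
      have h2 : D i (∑ v ∈ F, aG H c v * ∏ i, x i ^ wG H M v i) = 0 := by rw [h0, map_zero]
      have h3 : ∀ v ∈ F, D i (aG H c v * ∏ i, x i ^ wG H M v i) =
          (∑ j, (D i (x j) / x j) * ((wG H M v j : ℂ) * (aG H c v * ∏ i', x i' ^ wG H M v i'))) +
            if v = Sum.inr i then x i ^ M else 0 := by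
        intro v _
        rw [Derivation.leibniz, hDa, der_prod (D i) x hx (wG H M v) Finset.univ]
        congr 1
        · rw [smul_eq_mul, Finset.mul_sum, Finset.mul_sum]
          exact Finset.sum_congr rfl fun j _ => by ring
        · by_cases hv : v = Sum.inr i
          · rw [if_pos hv, if_pos hv, hv, prod_inr, smul_eq_mul, mul_one]
          · rw [if_neg hv, if_neg hv, smul_zero]
      rw [map_sum, Finset.sum_congr rfl h3, Finset.sum_add_distrib, Finset.sum_comm,
        Finset.sum_ite_eq' F (Sum.inr i), if_pos hi] at h2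
      have h5 : ∑ j, ∑ v ∈ F, (D i (x j) / x j) *
          ((wG H M v j : ℂ) * (aG H c v * ∏ i', x i' ^ wG H M v i')) = 0 := by
        refine Finset.sum_eq_zero fun j _ => ?_
        rw [← Finset.mul_sum, hcon j, mul_zero]
      rw [h5, zero_add] at h2
      exact pow_ne_zero _ (hx i) h2
    · push Not at hex
      obtain ⟨v₀, hv₀⟩ := hF
      obtain ⟨m₀, rfl⟩ : ∃ m₀ : H.support, v₀ = Sum.inl m₀ := by
        rcases v₀ with m | i
        · exact ⟨m, rfl⟩
        · exact absurd hv₀ (hex i)
      have hmin := (hk _).1 hv₀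
      let μ : ℤ := ∑ i, k i * (wG H M (Sum.inl m₀) i : ℤ)
      have hμ : ∀ i, μ < k i * M := by
        intro i
        have h1 := hmin (Sum.inr i)
        rw [sum_inr] at h1
        refine lt_of_le_of_ne h1 fun h2 => hex i ((hk _).2 fun v' => ?_)
        rw [sum_inr, ← h2]
        exact hmin v'
      have hpos : ∀ i, 0 < k i := by
        by_contra hneg
        push Not at hneg
        obtain ⟨i₁, hi₁⟩ := hneg
        obtain ⟨i₀, -, hi₀⟩ := Finset.exists_min_image Finset.univ k ⟨i₁, Finset.mem_univ _⟩
        have h1 : k i₀ ≤ 0 := (hi₀ i₁ (Finset.mem_univ _)).trans hi₁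
        have h2 : k i₀ * (∑ i, (m₀ : ι →₀ ℕ) i : ℕ) ≤ μ := by
          push_cast
          rw [Finset.mul_sum]
          refine Finset.sum_le_sum fun i _ => ?_
          exact mul_le_mul_of_nonneg_right (hi₀ i (Finset.mem_univ _)) (by positivity)
        have h3 : ((∑ i, (m₀ : ι →₀ ℕ) i : ℕ) : ℤ) ≤ M := by
          have := hdeg m₀ m₀.2
          exact_mod_cast this.trans hM1.le
        have h4 : k i₀ * M ≤ k i₀ * (∑ i, (m₀ : ι →₀ ℕ) i : ℕ) :=
          mul_le_mul_of_nonpos_left h3 h1
        have h5 := hμ i₀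
        omega
      -- the face is given by the initial form
      have hF' : ∀ v, v ∈ F ↔ ∃ m : H.support, v = Sum.inl m ∧
          ∀ m' ∈ H.support, ∑ i, k i * ((m : ι →₀ ℕ) i : ℤ) ≤ ∑ i, k i * (m' i : ℤ) := by
        intro v
        constructor
        · intro hv
          rcases v with m | i
          · exact ⟨m, rfl, fun m' hm' => (hk _).1 hv (Sum.inl ⟨m', hm'⟩)⟩
          · exact absurd hv (hex i)
        · rintro ⟨m, rfl, hm⟩
          refine (hk _).2 fun v' => ?_
          exact (hm m₀ m₀.2).trans (hmin v')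
      have hsum : inF H k = ∑ v ∈ F, monomial (Sum.elim (fun m : H.support => (m : ι →₀ ℕ))
          (fun _ => 0) v) (aG H c v) := by
        unfold inF
        symm
        refine Finset.sum_bij' (fun v _ => Sum.elim (fun m : H.support => (m : ι →₀ ℕ))
          (fun _ => 0) v) (fun m hm => Sum.inl ⟨m, (Finset.mem_filter.1 hm).1⟩) ?_ ?_ ?_ ?_ ?_
        · intro v hv
          obtain ⟨m, rfl, hm⟩ := (hF' v).1 hv
          exact Finset.mem_filter.2 ⟨m.2, hm⟩
        · intro m hm
          exact (hF' _).2 ⟨⟨m, (Finset.mem_filter.1 hm).1⟩, rfl, (Finset.mem_filter.1 hm).2⟩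
        · intro v hv
          obtain ⟨m, rfl, hm⟩ := (hF' v).1 hv
          rfl
        · intro m hm
          rfl
        · intro v hv
          obtain ⟨m, rfl, hm⟩ := (hF' v).1 hv
          rfl
      have hterm : ∀ v ∈ F, (∀ i, (Sum.elim (fun m : H.support => (m : ι →₀ ℕ))
          (fun _ => (0 : ι →₀ ℕ)) v) i = wG H M v i) := by
        intro v hv i
        obtain ⟨m, rfl, hm⟩ := (hF' v).1 hv
        rfl
      have he0 : eval x (inF H k) = 0 := by
        rw [hsum, map_sum, ← h0]
        refine Finset.sum_congr rfl fun v hv => ?_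
        rw [eval_mon]
        congr 1
        exact Finset.prod_congr rfl fun i _ => by rw [hterm v hv i]
      obtain ⟨i, hi⟩ := hNd k hpos x hx he0
      apply hi
      have h1 := mul_eval_pd F (fun v => Sum.elim (fun m : H.support => (m : ι →₀ ℕ))
          (fun _ => (0 : ι →₀ ℕ)) v) (aG H c) x i
      rw [← hsum] at h1
      have h2 : ∑ v ∈ F, (((Sum.elim (fun m : H.support => (m : ι →₀ ℕ))
          (fun _ => (0 : ι →₀ ℕ)) v) i : ℕ) : ℂ) * (aG H c v *
            ∏ i', x i' ^ (Sum.elim (fun m : H.support => (m : ι →₀ ℕ))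
          (fun _ => (0 : ι →₀ ℕ)) v) i') = 0 := by
        rw [← hcon i]
        refine Finset.sum_congr rfl fun v hv => ?_
        rw [hterm v hv i]
        congr 2
        exact Finset.prod_congr rfl fun i _ => by rw [hterm v hv i]
      rw [h2] at h1
      exact (mul_eq_zero.1 h1).resolve_left (hx i)
  · rw [poly_eq, add_sub_cancel_left]
    refine Ideal.sum_mem _ fun i _ => Ideal.mul_mem_left _ _ ?_
    apply Ideal.pow_mem_pow
    change eval _ (X i) = 0
    simp
  · intro i
    refine ⟨Sum.inr i, ?_, ?_⟩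
    · simp [wG]
    · intro j hj
      simp [wG, hj]

end Pool.Agent.Mono.NP
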