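import Pool.Agent.Work.Monodromy.Interface14

/-!
# GEO14: the model of an isolated nondegenerate point (helper6)
-/

set_option autoImplicit false

namespace Pool.Agent.Mono.NP

open MvPolynomial

namespace GEO14Aux

theorem cI_zero {ι : Type} [Fintype ι] [DecidableEq ι] :
    cI (0 : MvPolynomial ι ℂ) = ⊥ := by
  unfold cI
  rw [Ideal.span_eq_bot]
  rintro x (rfl | ⟨a, rfl⟩)
  · rfl
  · simp

end GEO14Aux

theorem stmt_GEO14 (hISL : Stmt_ISL14) (hNWT : Stmt_NWT14) (hCMP : Stmt_CMP14)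
    (hGEN : Stmt_GEN14) (hCRG : Stmt_CRG14) : Stmt_GEO14 := by
  classical
  intro ι _ _ f p hdeg hp hnd
  obtain ⟨hiso, φ, hφ, hNd⟩ := hnd
  have hne : Nonempty ι := by
    by_contra hcon
    rw [not_nonempty_iff] at hcon
    apply hdeg
    rw [MvPolynomial.eq_C_of_isEmpty f]
    exact MvPolynomial.totalDegree_C _
  obtain ⟨N, s, hs0, hs⟩ := hISL ι f p φ hp hiso hφ
  have hH : bind₁ φ f ≠ 0 := by
    intro h0
    rw [h0] at hs
    obtain ⟨i⟩ := hne
    have h1 : (X i : MvPolynomial ι ℂ) ^ N ∈ C9.mI (fun _ : ι => (0 : ℂ)) ^ N := by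
      apply Ideal.pow_mem_pow
      unfold C9.mI
      rw [RingHom.mem_ker]
      simp
    have h2 := hs _ h1
    rw [GEO14Aux.cI_zero] at h2
    have h3 : s * (X i : MvPolynomial ι ℂ) ^ N = 0 := by simpa using h2
    rcases mul_eq_zero.mp h3 with h4 | h4
    · apply hs0
      rw [h4]
      simp
    · exact pow_ne_zero N (MvPolynomial.X_ne_zero i) h4
  obtain ⟨M₀, hM₀⟩ := hNWT ι (bind₁ φ f) N s hs0 hs
  obtain ⟨M, κ, i1, i2, w, a, hM, hM1, hw, hNdP, hsub, hax⟩ := hGEN ι (bind₁ φ f) hH hNd M₀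
  refine ⟨κ, i1, i2, w, a, ?_, hw, hNdP, ?_, ?_⟩
  · obtain ⟨i⟩ := hne
    obtain ⟨v, -⟩ := hax i
    exact ⟨v⟩
  · exact hCRG ι κ w a M hM1 hNdP hax
  · exact hCMP ι f p φ (poly w a) hφ (hM₀ M hM (poly w a) hsub)

end Pool.Agent.Mono.NP
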