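import Pool.Agent.Work.Monodromy.Interface14
import Pool.Agent.Work.Monodromy9.CTW9

/-!
# ISL14: the critical ideal at an isolated point, in coordinates (helper49)
-/

set_option autoImplicit false
set_option linter.unusedSectionVars false

namespace Pool.Agent.Mono.NP

open MvPolynomial

namespace ISL14Aux

section

variable {ι : Type}

/-- the elements of the localisation of `I` at the origin -/
noncomputable def loc (I : Ideal (MvPolynomial ι ℂ)) : Ideal (MvPolynomial ι ℂ) where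
  carrier := {g | ∃ s : MvPolynomial ι ℂ, eval (fun _ => (0 : ℂ)) s ≠ 0 ∧ s * g ∈ I}
  add_mem' := by
    rintro a b ⟨s, hs, hsa⟩ ⟨t, ht, htb⟩
    refine ⟨s * t, ?_, ?_⟩
    · rw [map_mul]
      exact mul_ne_zero hs ht
    · have e : s * t * (a + b) = t * (s * a) + s * (t * b) := by ring
      rw [e]
      exact I.add_mem (I.mul_mem_left _ hsa) (I.mul_mem_left _ htb)
  zero_mem' := ⟨1, by simp, by simp⟩
  smul_mem' := by
    rintro c a ⟨s, hs, hsa⟩
    refine ⟨s, hs, ?_⟩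
    have e : s * (c • a) = c * (s * a) := by rw [smul_eq_mul]; ring
    rw [e]
    exact I.mul_mem_left _ hsa

theorem mem_loc {I : Ideal (MvPolynomial ι ℂ)} {g : MvPolynomial ι ℂ} :
    g ∈ loc I ↔ ∃ s : MvPolynomial ι ℂ, eval (fun _ => (0 : ℂ)) s ≠ 0 ∧ s * g ∈ I := Iff.rfl

/-- a common denominator -/
theorem unif {I K : Ideal (MvPolynomial ι ℂ)} (hK : K.FG) (h : K ≤ loc I) :
    ∃ s : MvPolynomial ι ℂ, eval (fun _ => (0 : ℂ)) s ≠ 0 ∧ ∀ g ∈ K, s * g ∈ I := by
  induction K, hK using Submodule.fg_induction with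
  | singleton x =>
    obtain ⟨s, hs, hsx⟩ := mem_loc.1 (h (Submodule.mem_span_singleton_self x))
    refine ⟨s, hs, fun g hg => ?_⟩
    obtain ⟨c, rfl⟩ := Submodule.mem_span_singleton.1 hg
    have e : s * (c • x) = c * (s * x) := by rw [smul_eq_mul]; ring
    rw [e]
    exact I.mul_mem_left _ hsx
  | sup K₁ K₂ _ _ h₁ h₂ =>
    obtain ⟨s, hs, hs'⟩ := h₁ (le_sup_left.trans h)
    obtain ⟨t, ht, ht'⟩ := h₂ (le_sup_right.trans h)
    refine ⟨s * t, by rw [map_mul]; exact mul_ne_zero hs ht, fun g hg => ?_⟩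
    obtain ⟨a, ha, b, hb, rfl⟩ := Submodule.mem_sup.1 hg
    have e : s * t * (a + b) = t * (s * a) + s * (t * b) := by ring
    rw [e]
    exact I.add_mem (I.mul_mem_left _ (hs' a ha)) (I.mul_mem_left _ (ht' b hb))

/-- the radical -/
theorem rad_loc {I : Ideal (MvPolynomial ι ℂ)} {s g : MvPolynomial ι ℂ}
    (hs : eval (fun _ => (0 : ℂ)) s ≠ 0) (h : s * g ∈ (loc I).radical) :
    g ∈ (loc I).radical := by
  obtain ⟨r, hr⟩ := h
  obtain ⟨t, ht, htr⟩ := mem_loc.1 hr
  refine ⟨r, mem_loc.2 ⟨t * s ^ r, ?_, ?_⟩⟩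
  · rw [map_mul, map_pow]
    exact mul_ne_zero ht (pow_ne_zero _ hs)
  · have e : t * s ^ r * g ^ r = t * (s * g) ^ r := by ring
    rw [e]
    exact htr

end

variable {ι : Type} [Fintype ι] [DecidableEq ι]

/-- the ideal of the coordinates -/
noncomputable def bI (p : ι → ℂ) (φ : ι → MvPolynomial ι ℂ) : Ideal (MvPolynomial ι ℂ) :=
  Ideal.span (Set.range fun a => φ a - C (p a))

theorem bind_mem (p : ι → ℂ) (φ : ι → MvPolynomial ι ℂ) (g : MvPolynomial ι ℂ) :
    bind₁ φ g - C (eval p g) ∈ bI p φ := by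
  induction g using MvPolynomial.induction_on with
  | C c => simp
  | add g h hg hh =>
    have e : bind₁ φ (g + h) - C (eval p (g + h)) =
        (bind₁ φ g - C (eval p g)) + (bind₁ φ h - C (eval p h)) := by
      rw [map_add, map_add, map_add]; ring
    rw [e]
    exact Ideal.add_mem _ hg hh
  | mul_X g a hg =>
    have e : bind₁ φ (g * X a) - C (eval p (g * X a)) =
        φ a * (bind₁ φ g - C (eval p g)) + C (eval p g) * (φ a - C (p a)) := by
      rw [map_mul, map_mul, bind₁_X_right, eval_X, map_mul]; ring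
    rw [e]
    exact Ideal.add_mem _ (Ideal.mul_mem_left _ _ hg)
      (Ideal.mul_mem_left _ _ (Ideal.subset_span ⟨a, rfl⟩))

/-- Nakayama -/
theorem nak (p : ι → ℂ) (φ : ι → MvPolynomial ι ℂ) (h : SP.IsCo p φ) :
    C9.mI (fun _ : ι => (0 : ℂ)) ≤ loc (bI p φ) := by
  have hb : bI p φ ≤ C9.mI (fun _ : ι => (0 : ℂ)) := by
    rw [bI, Ideal.span_le]
    rintro _ ⟨a, rfl⟩
    change eval _ _ = 0
    rw [map_sub, h.1, eval_C, sub_self]
  have h1 : C9.mI (fun _ : ι => (0 : ℂ)) ≤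
      bI p φ ⊔ C9.mI (fun _ : ι => (0 : ℂ)) • C9.mI (fun _ : ι => (0 : ℂ)) := by
    intro g hg
    obtain ⟨a, ha⟩ := C9.CTW9Aux.sur_co p φ h 2 g
    have h2 := bind_mem p φ a
    have h3 : eval p a = 0 := by
      have h4 : eval (fun _ => (0 : ℂ)) (g - bind₁ φ a) = 0 :=
        Ideal.pow_le_self (by norm_num) ha
      have h5 : eval (fun _ => (0 : ℂ)) (bind₁ φ a - C (eval p a)) = 0 := hb h2
      have h6 : eval (fun _ => (0 : ℂ)) g = 0 := hg
      rw [map_sub, h6, zero_sub, neg_eq_zero] at h4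
      rw [map_sub, h4, zero_sub, neg_eq_zero, eval_C] at h5
      exact h5
    rw [h3, C_0, sub_zero] at h2
    have e : g = bind₁ φ a + (g - bind₁ φ a) := by ring
    rw [e]
    refine Submodule.add_mem_sup h2 ?_
    rw [smul_eq_mul, ← pow_two]
    exact ha
  obtain ⟨r, hr, hr'⟩ := Submodule.exists_sub_one_mem_and_smul_le_of_fg_of_le_sup
    (IsNoetherian.noetherian (C9.mI (fun _ : ι => (0 : ℂ)))) le_rfl h1
  intro g hg
  refine mem_loc.2 ⟨r, ?_, ?_⟩
  · have h2 : eval (fun _ => (0 : ℂ)) (r - 1) = 0 := hr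
    rw [map_sub, map_one, sub_eq_zero] at h2
    rw [h2]
    exact one_ne_zero
  · exact hr' (Submodule.smul_mem_pointwise_smul g r _ hg)

/-- the determinant of the Jacobian matrix maps the critical ideal of `f` to that of `f ∘ φ` -/
theorem det_cI (φ : ι → MvPolynomial ι ℂ) (f g : MvPolynomial ι ℂ) (hg : g ∈ cI f) :
    (RO.WBAux.jac φ).det * bind₁ φ g ∈ cI (bind₁ φ f) := by
  unfold cI at hg
  induction hg using Submodule.span_induction with
  | mem x hx =>
    rcases hx with rfl | ⟨a, rfl⟩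
    · exact Ideal.mul_mem_left _ _ (Ideal.subset_span (Set.mem_insert _ _))
    · change _ * bind₁ φ (pderiv a f) ∈ _
      rw [RO.WBAux.det_bind]
      exact Ideal.sum_mem _ fun b _ => Ideal.mul_mem_right _ _
        (Ideal.subset_span (Set.mem_insert_of_mem _ ⟨b, rfl⟩))
  | zero => simp
  | add x y _ _ hx hy =>
    rw [map_add, mul_add]
    exact Ideal.add_mem _ hx hy
  | smul c x _ hx =>
    have e : (RO.WBAux.jac φ).det * bind₁ φ (c • x) =
        bind₁ φ c * ((RO.WBAux.jac φ).det * bind₁ φ x) := by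
      rw [smul_eq_mul, map_mul]; ring
    rw [e]
    exact Ideal.mul_mem_left _ _ hx

theorem det_ne {p : ι → ℂ} {φ : ι → MvPolynomial ι ℂ} (h : SP.IsCo p φ) :
    eval (fun _ => (0 : ℂ)) (RO.WBAux.jac φ).det ≠ 0 := by
  have hdet : eval (fun _ => (0 : ℂ)) (RO.WBAux.jac φ).det =
      (Matrix.of fun a b => eval (fun _ => (0 : ℂ)) (pderiv b (φ a))).det := by
    rw [RingHom.map_det]
    rfl
  rw [hdet]
  exact h.2

/-- the Nullstellensatz -/
theorem nul (f : MvPolynomial ι ℂ) (g : MvPolynomial ι ℂ)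
    (h : ∀ q ∈ SP.Crit0 f, eval q g = 0) : g ∈ (cI f).radical := by
  rw [← MvPolynomial.vanishingIdeal_zeroLocus_eq_radical (K := ℂ),
    MvPolynomial.mem_vanishingIdeal_iff]
  intro x hx
  rw [MvPolynomial.mem_zeroLocus_iff] at hx
  rw [MvPolynomial.aeval_eq_eval]
  refine h x ⟨?_, fun a => ?_⟩
  · have := hx f (Ideal.subset_span (Set.mem_insert _ _))
    simpa [MvPolynomial.aeval_eq_eval] using this
  · have := hx (pderiv a f) (Ideal.subset_span (Set.mem_insert_of_mem _ ⟨a, rfl⟩))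
    simpa [MvPolynomial.aeval_eq_eval] using this

end ISL14Aux

open ISL14Aux

theorem stmt_ISL14 : Stmt_ISL14 := by
  intro ι _ _ f p φ _ hiso hφ
  obtain ⟨s₁, hs₁, hs₁'⟩ := hiso
  -- the coordinates are in the radical
  have h1 : bI p φ ≤ (loc (cI (bind₁ φ f))).radical := by
    rw [bI, Ideal.span_le]
    rintro _ ⟨a, rfl⟩
    have h2 : s₁ * (X a - C (p a)) ∈ (cI f).radical := by
      refine nul f _ fun q hq => ?_
      rw [map_mul]
      by_cases h : eval q s₁ = 0
      · rw [h, zero_mul]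
      · rw [hs₁' q hq h]
        simp
    obtain ⟨r, hr⟩ := h2
    have h3 := det_cI φ f _ hr
    have hb : eval (fun _ => (0 : ℂ)) (bind₁ φ s₁) ≠ 0 := by
      have h4 : eval (fun _ => (0 : ℂ)) (bind₁ φ s₁) = eval p s₁ := by
        rw [← MvPolynomial.aeval_eq_eval, aeval_bind₁]
        have : (fun i => (aeval (fun _ => (0 : ℂ))) (φ i)) = p := by
          funext a
          rw [MvPolynomial.aeval_eq_eval]
          exact hφ.1 a
        rw [this, MvPolynomial.aeval_eq_eval]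
      rw [h4]
      exact hs₁
    refine rad_loc (s := bind₁ φ s₁) hb ⟨r, mem_loc.2 ⟨_, det_ne hφ, ?_⟩⟩
    have e : (bind₁ φ s₁ * (φ a - C (p a))) ^ r = bind₁ φ ((s₁ * (X a - C (p a))) ^ r) := by
      rw [map_pow, map_mul, map_sub, bind₁_X_right, bind₁_C_right]
    rw [e]
    exact h3
  -- Nakayama
  have h2 : C9.mI (fun _ : ι => (0 : ℂ)) ≤ (loc (cI (bind₁ φ f))).radical := by
    intro g hg
    obtain ⟨s, hs, hsg⟩ := mem_loc.1 (nak p φ hφ hg)
    exact rad_loc hs (h1 hsg)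
  obtain ⟨N, hN⟩ := Ideal.exists_pow_le_of_le_radical_of_fg h2 (IsNoetherian.noetherian _)
  obtain ⟨s, hs, hs'⟩ := unif (IsNoetherian.noetherian _) hN
  exact ⟨N, s, hs, hs'⟩

end Pool.Agent.Mono.NP
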