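import Pool.Agent.Work.Monodromy.Interface14
import Pool.Agent.Work.Monodromy9.N2Lib
import Pool.Agent.Work.Monodromy9.CTAux

/-!
# Phase 14, block NWT14 (helper45): finite determinacy up to contact equivalence
-/

set_option autoImplicit false

namespace Pool.Agent.Mono.NP

open MvPolynomial

namespace NWT14Aux

open C9.CTAux

variable {ι : Type} [Fintype ι] [DecidableEq ι]

omit [DecidableEq ι] in
lemma mem_cI (f g : MvPolynomial ι ℂ) (h : g ∈ cI f) :
    ∃ (α : MvPolynomial ι ℂ) (β : ι → MvPolynomial ι ℂ), g = α * f + ∑ i, β i * pderiv i f := by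
  rw [cI, Ideal.mem_span_insert] at h
  obtain ⟨α, z, hz, rfl⟩ := h
  obtain ⟨c, hc⟩ := Ideal.mem_span_range_iff_exists_fun.1 hz
  exact ⟨α, c, by rw [hc]⟩

omit [DecidableEq ι] in
/-- step (1) of the blueprint -/
lemma key (H G : MvPolynomial ι ℂ) (N M : ℕ) (s : MvPolynomial ι ℂ)
    (hs : eval (fun _ => 0) s ≠ 0) (hN : ∀ g ∈ C9.mI (fun _ : ι => (0 : ℂ)) ^ N, s * g ∈ cI H)
    (hM : N + 2 ≤ M) (hG : G - H ∈ C9.mI (fun _ : ι => (0 : ℂ)) ^ M) (g : MvPolynomial ι ℂ) (hg : g ∈ C9.mI (fun _ : ι => (0 : ℂ)) ^ N) :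
    ∃ (α : MvPolynomial ι ℂ) (β : ι → MvPolynomial ι ℂ),
      g - (α * G + ∑ i, β i * pderiv i G) ∈ C9.mI (fun _ : ι => (0 : ℂ)) ^ (N + 1) := by
  obtain ⟨t, ht⟩ := unit_mod hs 1
  rw [pow_one] at ht
  obtain ⟨α, β, hαβ⟩ := mem_cI H (s * (t * g)) (hN _ (Ideal.mul_mem_left _ _ hg))
  refine ⟨α, β, ?_⟩
  have h1 : g - (α * G + ∑ i, β i * pderiv i G) =
      -((s * t - 1) * g) + (-(α * (G - H)) - ∑ i, β i * pderiv i (G - H)) := by
    have h2 : ∑ i, β i * pderiv i (G - H) =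
        ∑ i, β i * pderiv i G - ∑ i, β i * pderiv i H := by
      rw [← Finset.sum_sub_distrib]
      exact Finset.sum_congr rfl fun i _ => by rw [map_sub, mul_sub]
    rw [h2]
    linear_combination hαβ
  rw [h1]
  have h3 : (s * t - 1) * g ∈ C9.mI (fun _ : ι => (0 : ℂ)) ^ (N + 1) := by
    rw [pow_succ']
    exact Ideal.mul_mem_mul ht hg
  have h4 : G - H ∈ C9.mI (fun _ : ι => (0 : ℂ)) ^ (N + 1) := Ideal.pow_le_pow_right (by omega) hG
  refine Ideal.add_mem _ (Ideal.neg_mem_iff _ |>.2 h3)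
    (Ideal.sub_mem _ (Ideal.neg_mem_iff _ |>.2 (Ideal.mul_mem_left _ _ h4))
      (Ideal.sum_mem _ fun i _ => Ideal.mul_mem_left _ _ ?_))
  obtain ⟨K, rfl⟩ : ∃ K, M = K + 1 := ⟨M - 1, by omega⟩
  exact Ideal.pow_le_pow_right (by omega) (der_pow (pderiv i) _ K _ hG)

omit [DecidableEq ι] in
/-- step (1), higher orders -/
lemma key' (H G : MvPolynomial ι ℂ) (N M : ℕ) (s : MvPolynomial ι ℂ)
    (hs : eval (fun _ => 0) s ≠ 0) (hN : ∀ g ∈ C9.mI (fun _ : ι => (0 : ℂ)) ^ N, s * g ∈ cI H)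
    (hM : N + 2 ≤ M) (hG : G - H ∈ C9.mI (fun _ : ι => (0 : ℂ)) ^ M) (j : ℕ) (h : MvPolynomial ι ℂ)
    (hh : h ∈ C9.mI (fun _ : ι => (0 : ℂ)) ^ (j + N)) :
    ∃ (α : MvPolynomial ι ℂ) (β : ι → MvPolynomial ι ℂ), α ∈ C9.mI (fun _ : ι => (0 : ℂ)) ^ j ∧ (∀ i, β i ∈ C9.mI (fun _ : ι => (0 : ℂ)) ^ j) ∧
      h - (α * G + ∑ i, β i * pderiv i G) ∈ C9.mI (fun _ : ι => (0 : ℂ)) ^ (j + N + 1) := by
  rw [pow_add] at hh
  refine Submodule.mul_induction_on hh ?_ ?_
  · intro a ha g hg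
    obtain ⟨α, β, hαβ⟩ := key H G N M s hs hN hM hG g hg
    refine ⟨a * α, fun i => a * β i, Ideal.mul_mem_right _ _ ha,
      fun i => Ideal.mul_mem_right _ _ ha, ?_⟩
    have h1 : a * g - (a * α * G + ∑ i, a * β i * pderiv i G) =
        a * (g - (α * G + ∑ i, β i * pderiv i G)) := by
      have h2 : ∑ i, a * β i * pderiv i G = a * ∑ i, β i * pderiv i G := by
        rw [Finset.mul_sum]
        exact Finset.sum_congr rfl fun i _ => by ring
      rw [h2]
      ring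
    rw [h1, add_assoc, pow_add]
    exact Ideal.mul_mem_mul ha hαβ
  · rintro x y ⟨α, β, h1, h2, h3⟩ ⟨α', β', h1', h2', h3'⟩
    refine ⟨α + α', fun i => β i + β' i, Ideal.add_mem _ h1 h1',
      fun i => Ideal.add_mem _ (h2 i) (h2' i), ?_⟩
    have h4 : x + y - ((α + α') * G + ∑ i, (β i + β' i) * pderiv i G) =
        (x - (α * G + ∑ i, β i * pderiv i G)) + (y - (α' * G + ∑ i, β' i * pderiv i G)) := by
      have h5 : ∑ i, (β i + β' i) * pderiv i G =
          ∑ i, β i * pderiv i G + ∑ i, β' i * pderiv i G := by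
        rw [← Finset.sum_add_distrib]
        exact Finset.sum_congr rfl fun i _ => by ring
      rw [h5]
      ring
    rw [h4]
    exact Ideal.add_mem _ h3 h3'

omit [Fintype ι] [DecidableEq ι] in
/-- the substitution `X + ξ` -/
lemma bind_sub (ξ : ι → MvPolynomial ι ℂ) (I : Ideal (MvPolynomial ι ℂ)) (hξ : ∀ i, ξ i ∈ I)
    (g : MvPolynomial ι ℂ) : bind₁ (fun i => X i + ξ i) g - g ∈ I := by
  have h := C9.N2Lib.aeval_congr I (fun i => X i + ξ i) X (fun a => by simpa using hξ a) g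
  rwa [aeval_X_left_apply] at h

omit [DecidableEq ι] in
lemma bind_taylor (ξ : ι → MvPolynomial ι ℂ) (j : ℕ) (hξ : ∀ i, ξ i ∈ C9.mI (fun _ : ι => (0 : ℂ)) ^ j)
    (g : MvPolynomial ι ℂ) :
    bind₁ (fun i => X i + ξ i) g - g - ∑ i, ξ i * pderiv i g ∈ C9.mI (fun _ : ι => (0 : ℂ)) ^ (j + j) := by
  have h := C9.N2Lib.taylor2 (C9.mI (fun _ : ι => (0 : ℂ)) ^ (j + j)) X ξ (fun a b => by
    rw [pow_add]
    exact Ideal.mul_mem_mul (hξ a) (hξ b)) g
  simp only [aeval_X_left_apply] at h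
  exact h

/-- one step of the iteration -/
lemma step (H G : MvPolynomial ι ℂ) (N M : ℕ) (s : MvPolynomial ι ℂ)
    (hs : eval (fun _ => 0) s ≠ 0) (hN : ∀ g ∈ C9.mI (fun _ : ι => (0 : ℂ)) ^ N, s * g ∈ cI H)
    (hM : 2 * N + 2 ≤ M) (hG : G - H ∈ C9.mI (fun _ : ι => (0 : ℂ)) ^ M) (k : ℕ) (hk : M ≤ k)
    (φ : ι → MvPolynomial ι ℂ) (U : MvPolynomial ι ℂ) (hφ : SP.IsCo (fun _ => 0) φ)
    (hU : eval (fun _ => 0) U = 1) (hφU : bind₁ φ H - U * G ∈ C9.mI (fun _ : ι => (0 : ℂ)) ^ k) :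
    ∃ (φ' : ι → MvPolynomial ι ℂ) (U' : MvPolynomial ι ℂ), SP.IsCo (fun _ => 0) φ' ∧
      eval (fun _ => 0) U' = 1 ∧ bind₁ φ' H - U' * G ∈ C9.mI (fun _ : ι => (0 : ℂ)) ^ (k + 1) := by
  obtain ⟨j, rfl⟩ : ∃ j, k = j + N := ⟨k - N, by omega⟩
  set h := bind₁ φ H - U * G with hh
  obtain ⟨α, β, hα, hβ, hr⟩ := key' H G N M s hs hN (by omega) hG j h hφU
  obtain ⟨V, hV⟩ := unit_mod (q := fun _ : ι => (0 : ℂ)) (s := U) (by rw [hU]; exact one_ne_zero)
    (j + N + 1)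
  set ξ : ι → MvPolynomial ι ℂ := fun i => -(V * β i) with hξ
  have hξm : ∀ i, ξ i ∈ C9.mI (fun _ : ι => (0 : ℂ)) ^ j := fun i => (C9.mI (fun _ : ι => (0 : ℂ)) ^ j).neg_mem (Ideal.mul_mem_left _ _ (hβ i))
  have hξ2 : ∀ i, ξ i ∈ C9.mI (fun _ : ι => (0 : ℂ)) ^ 2 := fun i => Ideal.pow_le_pow_right (by omega) (hξm i)
  have hξ1 : ∀ i, ξ i ∈ C9.mI (fun _ : ι => (0 : ℂ)) := fun i => Ideal.pow_le_self (by omega) (hξm i)
  refine ⟨fun a => bind₁ (fun i => X i + ξ i) (φ a), U + α - ∑ i, V * β i * pderiv i U,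
    ⟨?_, ?_⟩, ?_, ?_⟩
  · intro a
    have h1 := mem_mI.1 (bind_sub ξ _ hξ1 (φ a))
    rw [map_sub, hφ.1 a, sub_eq_zero] at h1
    exact h1
  · have h1 : (Matrix.of fun a b => eval (fun _ => (0 : ℂ))
        (pderiv b (bind₁ (fun i => X i + ξ i) (φ a)))) =
        Matrix.of fun a b => eval (fun _ => (0 : ℂ)) (pderiv b (φ a)) := by
      ext a b
      rw [Matrix.of_apply, Matrix.of_apply]
      have h2 := der_pow (pderiv b) (C9.mI (fun _ : ι => (0 : ℂ))) 1 _ (bind_sub ξ _ hξ2 (φ a))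
      rw [pow_one, map_sub, mem_mI, map_sub, sub_eq_zero] at h2
      exact h2
    rw [h1]
    exact hφ.2
  · rw [map_sub, map_add, hU, mem_mI.1 (Ideal.pow_le_self (by omega) hα), map_sum,
      Finset.sum_eq_zero, add_zero, sub_zero]
    intro i _
    rw [map_mul, map_mul, mem_mI.1 (Ideal.pow_le_self (by omega) (hβ i)), mul_zero, zero_mul]
  · have h1 : bind₁ (fun a => bind₁ (fun i => X i + ξ i) (φ a)) H =
        bind₁ (fun i => X i + ξ i) (bind₁ φ H) := by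
      rw [bind₁_bind₁]
    rw [h1]
    set B := bind₁ φ H with hB
    have h2 := bind_taylor ξ j hξm B
    have h3 : bind₁ (fun i => X i + ξ i) B - (U + α - ∑ i, V * β i * pderiv i U) * G =
        (bind₁ (fun i => X i + ξ i) B - B - ∑ i, ξ i * pderiv i B) +
          (h - (α * G + ∑ i, β i * pderiv i G)) + ∑ i, ξ i * pderiv i h -
          ∑ i, (U * V - 1) * (β i * pderiv i G) := by
      have h4 : B = U * G + h := by rw [hh]; ring
      have h5 : ∑ i, ξ i * pderiv i B = ∑ i, ξ i * (pderiv i U * G) +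
          ∑ i, ξ i * (U * pderiv i G) + ∑ i, ξ i * pderiv i h := by
        rw [← Finset.sum_add_distrib, ← Finset.sum_add_distrib]
        refine Finset.sum_congr rfl fun i _ => ?_
        rw [h4, map_add, Derivation.leibniz, smul_eq_mul, smul_eq_mul]
        ring
      have h6 : ∑ i, ξ i * (pderiv i U * G) = -((∑ i, V * β i * pderiv i U) * G) := by
        rw [Finset.sum_mul, ← Finset.sum_neg_distrib]
        exact Finset.sum_congr rfl fun i _ => by rw [hξ]; ring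
      have h7 : ∑ i, ξ i * (U * pderiv i G) = -∑ i, U * V * (β i * pderiv i G) := by
        rw [← Finset.sum_neg_distrib]
        exact Finset.sum_congr rfl fun i _ => by rw [hξ]; ring
      have h8 : ∑ i, (U * V - 1) * (β i * pderiv i G) =
          ∑ i, U * V * (β i * pderiv i G) - ∑ i, β i * pderiv i G := by
        rw [← Finset.sum_sub_distrib]
        exact Finset.sum_congr rfl fun i _ => by ring
      rw [h5, h6, h7, h8]
      linear_combination h4
    rw [h3]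
    refine Ideal.sub_mem _ (Ideal.add_mem _ (Ideal.add_mem _ ?_ hr) ?_) ?_
    · exact Ideal.pow_le_pow_right (by omega) h2
    · refine Ideal.sum_mem _ fun i _ => ?_
      obtain ⟨K, hK⟩ : ∃ K, j + N = K + 1 := ⟨j + N - 1, by omega⟩
      have h4 : pderiv i h ∈ C9.mI (fun _ : ι => (0 : ℂ)) ^ K := der_pow (pderiv i) _ K _ (by rw [← hK]; exact hφU)
      have h5 := Ideal.mul_mem_mul (hξm i) h4
      rw [← pow_add] at h5
      exact Ideal.pow_le_pow_right (by omega) h5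
    · exact Ideal.sum_mem _ fun i _ => Ideal.mul_mem_right _ _ hV

end NWT14Aux

open NWT14Aux in
/-- **NWT14** -/
theorem stmt_NWT14 : Stmt_NWT14 := by
  intro ι _ _ H N s hs hN
  refine ⟨2 * N + 2, fun M hM G hG k => ?_⟩
  have h0 : SP.IsCo (fun _ : ι => (0 : ℂ)) (fun i => (X i : MvPolynomial ι ℂ)) := by
    constructor
    · intro a
      rw [eval_X]
    · have h1 : (Matrix.of fun a b => eval (fun _ => (0 : ℂ))
          (pderiv b (X a : MvPolynomial ι ℂ))) = (1 : Matrix ι ι ℂ) := by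
        ext a b
        rw [Matrix.of_apply, Matrix.one_apply]
        by_cases hab : a = b
        · subst hab
          rw [pderiv_X_self, map_one, if_pos rfl]
        · rw [pderiv_X_of_ne hab, map_zero, if_neg hab]
      rw [h1, Matrix.det_one]
      exact one_ne_zero
  have h1 : ∀ k, M ≤ k → ∃ (φ : ι → MvPolynomial ι ℂ) (U : MvPolynomial ι ℂ),
      SP.IsCo (fun _ => 0) φ ∧ eval (fun _ => 0) U = 1 ∧
        bind₁ φ H - U * G ∈ C9.mI (fun _ => (0 : ℂ)) ^ k := by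
    intro k hk
    induction k, hk using Nat.le_induction with
    | base =>
      refine ⟨fun i => X i, 1, h0, map_one _, ?_⟩
      have h2 : bind₁ (fun i => (X i : MvPolynomial ι ℂ)) H - 1 * G = -(G - H) := by
        have h3 : bind₁ (fun i => (X i : MvPolynomial ι ℂ)) H = H := aeval_X_left_apply H
        rw [h3]
        ring
      rw [h2]
      exact (C9.mI (fun _ : ι => (0 : ℂ)) ^ M).neg_mem hG
    | succ k hk ih =>
      obtain ⟨φ, U, hφ, hU, hφU⟩ := ih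
      exact step H G N M s hs hN hM hG k hk φ U hφ hU hφU
  rcases le_total M k with h | h
  · exact h1 k h
  · obtain ⟨φ, U, hφ, hU, hφU⟩ := h1 M le_rfl
    exact ⟨φ, U, hφ, hU, Ideal.pow_le_pow_right h hφU⟩

end Pool.Agent.Mono.NP
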