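import Pool.Agent.Work.Monodromy.Interface14

/-!
# Phase 14, block PTG14: the functional at the origin (helper84)
-/

set_option autoImplicit false

namespace Pool.Agent.Mono.NP

open MvPolynomial

namespace PTG14Aux

variable {ι κ : Type} [Fintype ι] [DecidableEq ι] [Fintype κ] [DecidableEq κ]

/-- exponent vectors as finitely supported functions -/
noncomputable def W (w : κ → ι → ℕ) (v : κ) : ι →₀ ℕ := Finsupp.equivFunOnFinite.symm (w v)

omit [DecidableEq ι] [Fintype κ] [DecidableEq κ] in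
theorem W_apply (w : κ → ι → ℕ) (v : κ) (i : ι) : W w v i = w v i := by
  simp [W]

omit [DecidableEq ι] [DecidableEq κ] in
theorem poly_eq (w : κ → ι → ℕ) (a : κ → ℂ) : poly w a = ∑ v, monomial (W w v) (a v) := by
  unfold poly
  refine Finset.sum_congr rfl fun v _ => ?_
  rw [monomial_eq, Finsupp.prod_fintype _ _ (fun i => pow_zero _)]
  simp only [W_apply]

/-- the functional `x^m ↦ Ψ (u + m)` -/
noncomputable def lam (Ψ : (ι → ℤ) → ℂ) (u : ι → ℤ) : MvPolynomial ι ℂ →ₗ[ℂ] ℂ :=
  (basisMonomials ι ℂ).constr ℂ fun m => Ψ fun j => u j + m j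

omit [Fintype ι] [DecidableEq ι] in
theorem lam_monomial (Ψ : (ι → ℤ) → ℂ) (u : ι → ℤ) (m : ι →₀ ℕ) (c : ℂ) :
    lam Ψ u (monomial m c) = c * Ψ fun j => u j + m j := by
  have h1 : (monomial m c : MvPolynomial ι ℂ) = c • basisMonomials ι ℂ m := by
    rw [coe_basisMonomials, smul_monomial, smul_eq_mul, mul_one]
  rw [h1, map_smul, lam, Module.Basis.constr_basis, smul_eq_mul]

omit [Fintype ι] [DecidableEq ι] in
theorem lhom_ext {A B : MvPolynomial ι ℂ →ₗ[ℂ] ℂ}
    (h : ∀ m : ι →₀ ℕ, A (monomial m 1) = B (monomial m 1)) (g : MvPolynomial ι ℂ) :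
    A g = B g := by
  have : A = B := by
    apply (basisMonomials ι ℂ).ext
    intro m
    rw [coe_basisMonomials]
    exact h m
  rw [this]

/-- allowed points -/
def Al (J : Finset ι) (u : ι → ℤ) : Prop := ∀ j, j ∉ J → 0 ≤ u j

variable {w : κ → ι → ℕ} {a : κ → ℂ} {J : Finset ι} {ν : ι → ℚ} {β : ℚ} {k₀ : ℤ}
  {Φ : ℤ → (ι → ℤ) → ℂ}

theorem al_add {J : Finset ι} {u : ι → ℤ} (hu : Al J u) (m : ι →₀ ℕ) :
    Al J fun j => u j + m j := by
  intro j hj
  have := hu j hj
  positivity

omit [DecidableEq κ] in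
/-- the second relation -/
theorem rel_mul (h : Rl w a J ν β k₀ Φ) (k : ℤ) {u : ι → ℤ} (hu : Al J u) (m : ι →₀ ℕ) :
    lam (Φ (k + 1)) u (poly w a * monomial m 1) = ((β : ℂ) - k) * lam (Φ k) u (monomial m 1) := by
  have h2 := h.2.1 k (fun j => u j + m j) (al_add hu m)
  rw [poly_eq, Finset.sum_mul, map_sum, lam_monomial, one_mul, ← h2]
  refine Finset.sum_congr rfl fun v _ => ?_
  rw [monomial_mul, lam_monomial, mul_one]
  congr 2
  funext j
  rw [Finsupp.add_apply, W_apply]
  push_cast
  ring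

omit [DecidableEq κ] in
/-- the first relation -/
theorem rel_pderiv (h : Rl w a J ν β k₀ Φ) (k : ℤ) {u : ι → ℤ} (hu : Al J u) (i : ι)
    (m : ι →₀ ℕ) :
    lam (Φ (k + 1)) u (pderiv i (poly w a) * monomial m 1) =
      -((u i : ℂ) + (m i : ℂ) + (ν i : ℂ)) *
        Φ k (fun j => u j + m j - if j = i then 1 else 0) := by
  have h1 := h.1 k (fun j => u j + m j) i (al_add hu m)
  have h1' : -((u i : ℂ) + (m i : ℂ) + (ν i : ℂ)) *
        Φ k (fun j => u j + m j - if j = i then 1 else 0) =
      -(((u i + m i : ℤ) : ℂ) + (ν i : ℂ)) *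
        Φ k (fun j => u j + m j - if j = i then 1 else 0) := by
    push_cast
    ring
  rw [h1', ← h1, poly_eq, map_sum, Finset.sum_mul, map_sum]
  refine Finset.sum_congr rfl fun v _ => ?_
  rw [pderiv_monomial, monomial_mul, lam_monomial, mul_one, W_apply]
  by_cases hw : w v i = 0
  · simp [hw]
  · have e : (fun j => u j + (((W w v - Finsupp.single i 1 + m : ι →₀ ℕ) j : ℕ) : ℤ)) =
        (fun j => u j + (m j : ℤ) + (w v j : ℤ) - if j = i then 1 else 0) := by
      funext j
      rw [Finsupp.add_apply, Finsupp.tsub_apply, W_apply]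
      by_cases hj : j = i
      · subst hj
        rw [Finsupp.single_eq_same, if_pos rfl, Nat.cast_add, Nat.cast_sub (by omega)]
        push_cast
        ring
      · rw [Finsupp.single_eq_of_ne hj, if_neg hj, Nat.sub_zero]
        push_cast
        ring
    rw [e]
    ring

/-- the critical ideal contains a power of the maximal ideal of the origin -/
theorem exists_pow_le {f : MvPolynomial ι ℂ} (hf : SP.Crit0 f ⊆ {fun _ => 0}) :
    ∃ N : ℕ, C9.mI (fun _ : ι => (0 : ℂ)) ^ N ≤ cI f := by
  have hrad : C9.mI (fun _ : ι => (0 : ℂ)) ≤ (cI f).radical := by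
    intro g hg
    rw [← MvPolynomial.vanishingIdeal_zeroLocus_eq_radical (K := ℂ),
      MvPolynomial.mem_vanishingIdeal_iff]
    intro x hx
    rw [MvPolynomial.mem_zeroLocus_iff] at hx
    have hxc : x ∈ SP.Crit0 f := by
      refine ⟨?_, fun i => ?_⟩
      · have := hx f (Ideal.subset_span (Set.mem_insert _ _))
        simpa [MvPolynomial.aeval_eq_eval] using this
      · have := hx (pderiv i f) (Ideal.subset_span (Set.mem_insert_of_mem _ ⟨i, rfl⟩))
        simpa [MvPolynomial.aeval_eq_eval] using this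
    have hx0 : x = fun _ => 0 := hf hxc
    rw [hx0]
    have hg' : eval (fun _ : ι => (0 : ℂ)) g = 0 := hg
    simpa [MvPolynomial.aeval_eq_eval] using hg'
  exact Ideal.exists_pow_le_of_le_radical_of_fg hrad
    ((isNoetherianRing_iff_ideal_fg _).1 inferInstance _)

omit [Fintype ι] [DecidableEq ι] in
/-- a functional which kills the multiples of the generators kills the ideal -/
theorem kill_cI {f : MvPolynomial ι ℂ} (L : MvPolynomial ι ℂ →ₗ[ℂ] ℂ)
    (h0 : ∀ g, L (f * g) = 0) (h1 : ∀ i g, L (pderiv i f * g) = 0) :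
    ∀ g ∈ cI f, L g = 0 := by
  intro g hg
  have h : ∀ h', L (g * h') = 0 := by
    refine Submodule.span_induction (p := fun g _ => ∀ h', L (g * h') = 0) ?_ ?_ ?_ ?_ hg
    · rintro x (rfl | ⟨i, rfl⟩) h'
      · exact h0 h'
      · exact h1 i h'
    · intro h'
      rw [zero_mul, map_zero]
    · intro x y _ _ hx hy h'
      rw [add_mul, map_add, hx, hy, add_zero]
    · intro r x _ hx h'
      rw [smul_eq_mul, mul_comm r x, mul_assoc]
      exact hx _
  have := h 1
  rwa [mul_one] at this

omit [Fintype ι] [DecidableEq ι] in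
/-- derivatives of the powers of the ideal -/
theorem pderiv_pow_mem {I : Ideal (MvPolynomial ι ℂ)} (i : ι) (n : ℕ) :
    ∀ g ∈ I ^ (n + 1), pderiv i g ∈ I ^ n := by
  induction n with
  | zero => intro g _; rw [pow_zero, Ideal.one_eq_top]; exact Submodule.mem_top
  | succ n ih =>
    intro g hg
    rw [pow_succ] at hg
    refine Submodule.mul_induction_on hg ?_ ?_
    · intro x hx y hy
      rw [Derivation.leibniz, smul_eq_mul, smul_eq_mul]
      refine Ideal.add_mem _ ?_ ?_
      · exact Ideal.mul_mem_right _ _ hx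
      · have h3 := Ideal.mul_mem_mul (ih x hx) hy
        rw [← pow_succ] at h3
        rw [mul_comm y]
        exact h3
    · intro x y hx hy
      rw [map_add]
      exact Ideal.add_mem _ hx hy

end PTG14Aux

open PTG14Aux in
theorem stmt_PTG14 (hGNR : Stmt_GNR) (hSPEC : Stmt_SPEC) : Stmt_PTG14 := by
  intro ι κ _ _ _ _ w a h s₀ hNd hcrit hh hs₀ hLam
  obtain ⟨J, ν, k₀, hν, hgen⟩ := hGNR ι κ w h s₀ hh hs₀ hLam
  obtain ⟨Φ, hR, hNz⟩ := hSPEC ι κ w a J ν s₀ k₀ hNd hν hgen
  classical
  -- the smallest degree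
  obtain ⟨k₂, u₂, hu₂, hΦ₂⟩ := hNz
  have hex : ∃ n : ℕ, ∃ u : ι → ℤ, Al J u ∧ Φ (k₀ + n) u ≠ 0 := by
    have hk : k₀ ≤ k₂ := by
      by_contra hc
      push Not at hc
      exact hΦ₂ (hR.2.2 k₂ hc u₂ hu₂)
    obtain ⟨n, hn⟩ := Int.eq_ofNat_of_zero_le (sub_nonneg.2 hk)
    refine ⟨n, u₂, hu₂, ?_⟩
    have : k₀ + (n : ℤ) = k₂ := by omega
    rwa [this]
  set n₁ := Nat.find hex with hn₁
  obtain ⟨u₁, hu₁, hΦ₁⟩ := Nat.find_spec hex
  have hmin : ∀ k < k₀ + (n₁ : ℤ), ∀ u, Al J u → Φ k u = 0 := by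
    intro k hk u hu
    by_cases hk0 : k < k₀
    · exact hR.2.2 k hk0 u hu
    · obtain ⟨n, hn⟩ := Int.eq_ofNat_of_zero_le (sub_nonneg.2 (not_lt.1 hk0))
      have hnlt : n < n₁ := by omega
      have h2 := Nat.find_min hex hnlt
      push Not at h2
      have := h2 u hu
      have e : k₀ + (n : ℤ) = k := by omega
      rwa [e] at this
  set k₁ : ℤ := k₀ + (n₁ : ℤ) with hk₁
  -- the functionals of degree `k₁` kill the critical ideal
  have hkill0 : ∀ u, Al J u → ∀ g, lam (Φ k₁) u (poly w a * g) = 0 := by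
    intro u hu g
    have := lhom_ext (A := (lam (Φ k₁) u).comp (LinearMap.mulLeft ℂ (poly w a))) (B := 0) ?_ g
    · simpa using this
    · intro m
      rw [LinearMap.comp_apply, LinearMap.mulLeft_apply, LinearMap.zero_apply]
      have h1 := rel_mul hR (k₁ - 1) hu m
      rw [sub_add_cancel] at h1
      rw [h1, lam_monomial, hmin (k₁ - 1) (by omega) _ (al_add hu m), mul_zero, mul_zero]
  have hkill1 : ∀ u, Al J u → ∀ i g, lam (Φ k₁) u (pderiv i (poly w a) * g) = 0 := by
    intro u hu i g
    have := lhom_ext (A := (lam (Φ k₁) u).comp (LinearMap.mulLeft ℂ (pderiv i (poly w a))))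
      (B := 0) ?_ g
    · simpa using this
    · intro m
      rw [LinearMap.comp_apply, LinearMap.mulLeft_apply, LinearMap.zero_apply]
      have h1 := rel_pderiv hR (k₁ - 1) hu i m
      rw [sub_add_cancel] at h1
      rw [h1]
      by_cases hi : i ∈ J ∨ 1 ≤ u i + m i
      · rw [hmin (k₁ - 1) (by omega) _ ?_, mul_zero]
        intro j hj
        have h2 := al_add hu m j hj
        by_cases hji : j = i
        · subst hji
          rcases hi with h3 | h3
          · exact absurd h3 hj
          · simp only [if_pos]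
            omega
        · simp only [if_neg hji]
          simpa using h2
      · push Not at hi
        have h2 := al_add hu m i hi.1
        have h3 : u i + (m i : ℤ) = 0 := by
          have h4 : 0 ≤ u i + (m i : ℤ) := h2
          omega
        have h4 : (u i : ℂ) + (m i : ℂ) = 0 := by
          have := congrArg (fun z : ℤ => (z : ℂ)) h3
          push_cast at this
          exact this
        rw [h4, hν i hi.1]
        simp
  have hkill : ∀ u, Al J u → ∀ g ∈ cI (poly w a), lam (Φ k₁) u g = 0 := fun u hu =>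
    kill_cI _ (hkill0 u hu) (hkill1 u hu)
  obtain ⟨N, hN⟩ := exists_pow_le hcrit
  -- `J` is empty
  have hJ : J = ∅ := by
    by_contra hne
    obtain ⟨j, hj⟩ := Finset.nonempty_iff_ne_empty.2 hne
    apply hΦ₁
    have hXj : (X j : MvPolynomial ι ℂ) ^ N ∈ cI (poly w a) := by
      apply hN
      apply Ideal.pow_mem_pow
      change eval (fun _ : ι => (0 : ℂ)) (X j) = 0
      simp
    have hu : Al J (fun i => u₁ i - if i = j then (N : ℤ) else 0) := by
      intro i hi
      have hij : i ≠ j := fun h => hi (h ▸ hj)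
      simp only [if_neg hij, sub_zero]
      exact hu₁ i hi
    have h1 := hkill _ hu _ hXj
    rw [X_pow_eq_monomial, lam_monomial, one_mul] at h1
    rw [← h1]
    congr 1
    funext i
    by_cases hij : i = j
    · subst hij
      simp
    · simp [hij, Finsupp.single_eq_of_ne hij]
  subst hJ
  have hν0 : ∀ i, ν i = 0 := fun i => hν i (Finset.notMem_empty i)
  have hAl0 : Al (∅ : Finset ι) (fun _ : ι => (0 : ℤ)) := fun _ _ => le_rfl
  -- relations
  have hrelm : ∀ (i : ℕ) (g : MvPolynomial ι ℂ),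
      lam (Φ (k₁ + (i + 1 : ℕ))) (fun _ => 0) (poly w a * g) =
        (((s₀ - k₁ : ℚ) : ℂ) - i) * lam (Φ (k₁ + (i : ℕ))) (fun _ => 0) g := by
    intro i g
    have := lhom_ext
      (A := (lam (Φ (k₁ + (i + 1 : ℕ))) fun _ => 0).comp (LinearMap.mulLeft ℂ (poly w a)))
      (B := (((s₀ - k₁ : ℚ) : ℂ) - i) • lam (Φ (k₁ + (i : ℕ))) fun _ => 0) ?_ g
    · simpa using this
    · intro m
      rw [LinearMap.comp_apply, LinearMap.mulLeft_apply, LinearMap.smul_apply, smul_eq_mul]
      have h1 := rel_mul hR (k₁ + (i : ℕ)) hAl0 m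
      have e : k₁ + (i : ℕ) + 1 = k₁ + ((i + 1 : ℕ) : ℤ) := by push_cast; ring
      rw [e] at h1
      rw [h1]
      push_cast
      ring
  have hreld : ∀ (i : ℕ) (b : ι) (g : MvPolynomial ι ℂ),
      lam (Φ (k₁ + (i + 1 : ℕ))) (fun _ => 0) (pderiv b (poly w a) * g) =
        -lam (Φ (k₁ + (i : ℕ))) (fun _ => 0) (pderiv b g) := by
    intro i b g
    have := lhom_ext
      (A := (lam (Φ (k₁ + (i + 1 : ℕ))) fun _ => 0).comp
        (LinearMap.mulLeft ℂ (pderiv b (poly w a))))
      (B := -(lam (Φ (k₁ + (i : ℕ))) fun _ => 0).comp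
        (pderiv b : Derivation ℂ (MvPolynomial ι ℂ) (MvPolynomial ι ℂ)).toLinearMap) ?_ g
    · simpa using this
    · intro m
      rw [LinearMap.comp_apply, LinearMap.mulLeft_apply, LinearMap.neg_apply,
        LinearMap.comp_apply]
      have h1 := rel_pderiv hR (k₁ + (i : ℕ)) hAl0 b m
      have e : k₁ + (i : ℕ) + 1 = k₁ + ((i + 1 : ℕ) : ℤ) := by push_cast; ring
      rw [e] at h1
      rw [h1]
      change _ = -lam (Φ (k₁ + (i : ℕ))) (fun _ => 0) (pderiv b (monomial m 1))
      rw [pderiv_monomial, lam_monomial, hν0 b]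
      by_cases hm : m b = 0
      · simp [hm]
      · have e2 : (fun j => (0 : ℤ) + ((m - Finsupp.single b 1 : ι →₀ ℕ) j : ℤ)) =
            (fun j => (0 : ℤ) + (m j : ℤ) - if j = b then 1 else 0) := by
          funext j
          rw [Finsupp.tsub_apply]
          by_cases hj : j = b
          · subst hj
            rw [Finsupp.single_eq_same, if_pos rfl, Nat.cast_sub (by omega)]
            push_cast
            ring
          · rw [Finsupp.single_eq_of_ne hj, if_neg hj, Nat.sub_zero]
            push_cast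
            ring
        rw [e2]
        push_cast
        ring
  -- support
  have hsupp : ∀ (i : ℕ), ∀ g ∈ cI (poly w a) ^ (2 * i + 1),
      lam (Φ (k₁ + (i : ℕ))) (fun _ => 0) g = 0 := by
    intro i
    induction i with
    | zero =>
      intro g hg
      rw [mul_zero, zero_add, pow_one] at hg
      have := hkill _ hAl0 g hg
      simpa using this
    | succ i ih =>
      intro g hg
      have e : 2 * (i + 1) + 1 = (2 * i + 1 + 1) + 1 := by ring
      rw [e, pow_succ (cI (poly w a)) (2 * i + 1 + 1)] at hg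
      refine Submodule.mul_induction_on hg ?_ ?_
      · intro x hx y hy
        -- `y` in the ideal, `x` in its power
        have hgen : ∀ y ∈ cI (poly w a), ∀ x ∈ cI (poly w a) ^ (2 * i + 1 + 1),
            lam (Φ (k₁ + ((i + 1 : ℕ) : ℤ))) (fun _ => 0) (y * x) = 0 := by
          intro y hy
          refine Submodule.span_induction (p := fun y _ => ∀ x ∈ cI (poly w a) ^ (2 * i + 1 + 1),
            lam (Φ (k₁ + ((i + 1 : ℕ) : ℤ))) (fun _ => 0) (y * x) = 0) ?_ ?_ ?_ ?_ hy
          · rintro z (rfl | ⟨b, rfl⟩) x hx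
            · rw [hrelm, ih x (Ideal.pow_le_pow_right (Nat.le_succ _) hx), mul_zero]
            · change lam (Φ (k₁ + ((i + 1 : ℕ) : ℤ))) (fun _ => 0)
                (pderiv b (poly w a) * x) = 0
              rw [hreld, ih _ (pderiv_pow_mem b _ x hx), neg_zero]
          · intro x _
            rw [zero_mul, map_zero]
          · intro y y' _ _ h1 h2 x hx
            rw [add_mul, map_add, h1 x hx, h2 x hx, add_zero]
          · intro r y _ h1 x hx
            rw [smul_eq_mul, mul_comm r y, mul_assoc]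
            exact h1 _ (Ideal.mul_mem_left _ r hx)
        rw [mul_comm]
        exact hgen y hy x hx
      · intro x y hx hy
        rw [map_add, hx, hy, add_zero]
  refine ⟨s₀ - k₁, -k₁, by push_cast; ring,
    fun i => lam (Φ (k₁ + (i : ℕ))) fun _ => 0, ?_, ?_, ?_, ?_, ?_, ?_⟩
  · intro h0
    apply hΦ₁
    have hu1 : ∀ j, 0 ≤ u₁ j := fun j => hu₁ j (Finset.notMem_empty j)
    have h1 : lam (Φ (k₁ + ((0 : ℕ) : ℤ))) (fun _ => 0)
        (monomial (Finsupp.equivFunOnFinite.symm fun j => (u₁ j).toNat) 1) = 0 := by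
      have h0' : lam (Φ (k₁ + ((0 : ℕ) : ℤ))) (fun _ => 0) = 0 := h0
      rw [h0']; rfl
    rw [lam_monomial, one_mul] at h1
    rw [← h1]
    have e1 : k₁ + ((0 : ℕ) : ℤ) = k₁ := by simp
    rw [e1]
    congr 1
    funext j
    have := hu1 j
    simp [Int.toNat_of_nonneg this]
  · intro i
    refine ⟨N * (2 * i + 1), fun g hg => ?_⟩
    apply hsupp i
    rw [pow_mul] at hg
    exact Ideal.pow_right_mono hN _ hg
  · intro b g
    have := hkill1 _ hAl0 b g
    simpa using this
  · intro g
    have := hkill0 _ hAl0 g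
    simpa using this
  · intro i b g
    exact hreld i b g
  · intro i g
    exact hrelm i g

end Pool.Agent.Mono.NP
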