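import Pool.Agent.Work.Monodromy.Interface14
import Pool.Agent.Work.Monodromy4.Q5

/-!
# Block Q514: the poles of the limit are the negatives of the exponents (limits for large `s`)
-/

set_option autoImplicit false

namespace Pool.Agent.Mono.NP

open Polynomial TS TS.Q5Aux Filter

theorem stmt_Q514 : Stmt_Q514 := by
  intro Λ κ R hκ hR
  obtain ⟨l, num, hl, hnum⟩ := hκ
  obtain ⟨num', den', h0, h1, h2'⟩ := hR
  obtain ⟨s₀, h2⟩ := eventually_atTop.1 h2'
  have hl1 : ∀ q ∈ l, 1 ≤ q.1 := fun q hq => (hl q hq).1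
  -- comparison of the two representations
  have key : den' * num = denP l * num' := by
    have : ((den' * num : Polynomial K) : PowerSeries K) =
        ((denP l * num' : Polynomial K) : PowerSeries K) := by
      push_cast
      rw [← hnum, ← h1]
      ring
    exact_mod_cast this
  obtain ⟨d, J, N, hd, hN1, hN2⟩ := clear num
  obtain ⟨d1, hd1, hd2⟩ := Polynomial.exists_eq_pow_rootMultiplicity_mul_and_not_dvd d hd 1
  set M := rootMultiplicity 1 d with hM
  have hd3 : d1.eval 1 ≠ 0 := by
    intro h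
    exact hd2 (dvd_iff_isRoot.2 h)
  obtain ⟨p, hp⟩ := hN1 (M + l.length)
  -- the values
  have hval : ∀ s : ℕ, s₀ ≤ s →
      R.eval (RingHom.id ℚ) (s : ℚ) * (l.map linQ).prod.eval (s : ℚ) *
      d1.eval 1 = p.eval (s : ℚ) := by
    intro s hs
    obtain ⟨a1, a2, a3⟩ := h2 s hs
    rw [← hp s]
    symm
    set g : K := num'.eval (xq ^ s) / den'.eval (xq ^ s) with hg
    have a3' : LimOne g (R.eval (RingHom.id ℚ) (s : ℚ)) := a3
    have a1' : den'.eval (xq ^ s) ≠ 0 := a1
    have hgd : g * (denP l).eval (xq ^ s) = num.eval (xq ^ s) := by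
      have e := congrArg (Polynomial.eval (xq ^ s)) key
      rw [eval_mul, eval_mul] at e
      rw [hg, div_mul_eq_mul_div, div_eq_iff a1']
      linear_combination -e
    have hlim := ((a3'.mul (prod_lim l s)).mul (LimOne.algebraMap d1)).mul (LimOne.X.pow (J * s))
    rw [one_pow, mul_one] at hlim
    refine taylor_limit _ _ _ _ hlim ?_
    rw [hN2 s, ← hgd, denP_eval]
    have h3 : algebraMap (Polynomial ℚ) K d =
        (RatFunc.X - 1) ^ M * algebraMap (Polynomial ℚ) K d1 := by
      conv_lhs => rw [hd1]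
      rw [map_mul, map_pow, map_sub, RatFunc.algebraMap_X, C_1, map_one]
    rw [h3, pow_add]
    ring
  have hpoly : R.num * ((l.map linQ).prod * C (d1.eval 1)) = p * R.denom := by
    apply Polynomial.eq_of_infinite_eval_eq
    apply Set.Infinite.mono (s := Set.range fun s : ℕ => ((s + s₀ : ℕ) : ℚ))
    · rintro _ ⟨s, rfl⟩
      have h3 := hval (s + s₀) (by omega)
      have h4 := (h2 (s + s₀) (by omega)).2.1
      rw [RatFunc.eval, eval₂_id, eval₂_id] at h3
      simp only [Set.mem_ofPred_eq, eval_mul, eval_C]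
      rw [← h3]
      field_simp
    · refine Set.infinite_range_of_injective fun a b hab => ?_
      have : a + s₀ = b + s₀ := by exact_mod_cast hab
      omega
  intro s hs
  have hdvd : R.denom ∣ (l.map linQ).prod * C (d1.eval 1) := by
    have hcop : IsCoprime R.denom R.num := (RatFunc.isCoprime_num_denom R).symm
    exact hcop.dvd_of_dvd_mul_left ⟨p, by rw [hpoly]; ring⟩
  obtain ⟨r, hr⟩ := hdvd
  have h5 : aeval s ((l.map linQ).prod * C (d1.eval 1)) = 0 := by
    rw [hr, map_mul, hs, zero_mul]
  rw [map_mul, aeval_C, map_list_prod, List.map_map] at h5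
  rcases mul_eq_zero.1 h5 with h6 | h6
  · rw [List.prod_eq_zero_iff, List.mem_map] at h6
    obtain ⟨q, hq, hq0⟩ := h6
    obtain ⟨hq1, hq2⟩ := hl q hq
    refine ⟨_, hq2, ?_⟩
    simp only [Function.comp_apply, linQ, map_add, map_mul, aeval_C, aeval_X] at hq0
    have hq3 : (q.1 : ℂ) ≠ 0 := by
      have : q.1 ≠ 0 := by omega
      exact_mod_cast this
    push_cast
    have h7 : (q.2 : ℂ) + q.1 * s = 0 := by
      simpa using hq0
    field_simp
    linear_combination h7
  · exfalso
    apply hd3
    have : (algebraMap ℚ ℂ) (d1.eval 1) = 0 := h6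
    simpa using this

end Pool.Agent.Mono.NP
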