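import Pool.Agent.Work.Monodromy.Interface14
import Pool.Agent.Work.Monodromy12.RA12

/-!
# Phase 14, block RAT14: rational series whose real limits are rational numbers (helper34)
-/

set_option autoImplicit false

namespace Pool.Agent.Mono.NP

open Filter Topology

namespace RAT14Aux

open RAAux

theorem er_one (p : Polynomial ℚ) : er 1 p = ((p.eval 1 : ℚ) : ℝ) := by
  rw [er, Polynomial.aeval_def, show (1 : ℝ) = algebraMap ℚ ℝ 1 by simp,
    Polynomial.eval₂_at_apply]
  rfl

/-- a quotient of polynomials with a finite limit at `1` -/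
theorem limOne_of_tendsto (g : RatFunc ℚ) (L : ℚ)
    (h : Tendsto (fun u : ℝ => er u g.num / er u g.denom) (𝓝[>] 1) (𝓝 (L : ℝ))) :
    LimOne g L := by
  have hnum : Tendsto (fun u : ℝ => er u g.num) (𝓝[>] 1) (𝓝 (er 1 g.num)) :=
    ((er_continuous _).tendsto 1).mono_left nhdsWithin_le_nhds
  have hden : Tendsto (fun u : ℝ => er u g.denom) (𝓝[>] 1) (𝓝 (er 1 g.denom)) :=
    ((er_continuous _).tendsto 1).mono_left nhdsWithin_le_nhds
  have hmul : er 1 g.num = (L : ℝ) * er 1 g.denom := by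
    refine tendsto_nhds_unique hnum ((h.mul hden).congr' ?_)
    filter_upwards [eventually_er_ne g.denom (RatFunc.denom_ne_zero g)] with u hu
    rw [div_mul_cancel₀ _ hu]
  have hne : g.denom.eval 1 ≠ 0 := by
    intro h0
    have h1 : er 1 g.denom = 0 := by rw [er_one, h0, Rat.cast_zero]
    rw [h1, mul_zero, er_one] at hmul
    have h2 : g.num.eval 1 = 0 := by exact_mod_cast hmul
    obtain ⟨a, b, hab⟩ := RatFunc.isCoprime_num_denom g
    have h3 := congrArg (Polynomial.eval 1) hab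
    rw [Polynomial.eval_add, Polynomial.eval_mul, Polynomial.eval_mul, h0, h2, mul_zero, mul_zero,
      add_zero, Polynomial.eval_one] at h3
    exact zero_ne_one h3
  refine ⟨hne, ?_⟩
  rw [er_one, er_one] at hmul
  have h4 : g.num.eval 1 = L * g.denom.eval 1 := by exact_mod_cast hmul
  rw [RatFunc.eval]
  have h5 : ∀ p : Polynomial ℚ, Polynomial.eval₂ (RingHom.id ℚ) 1 p = p.eval 1 := fun p => rfl
  rw [h5, h5, h4, mul_div_assoc, div_self hne, mul_one]

end RAT14Aux

open RAAux RAT14Aux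

theorem stmt_RAT14 : Stmt_RAT14 := by
  classical
  intro n P num den s L _ hmul hsum htend hden
  obtain ⟨Q, N, D, hQ, hN, hD⟩ := exists_common num den
  set φ : Polynomial ℚ →+* RatFunc ℚ := algebraMap (Polynomial ℚ) (RatFunc ℚ) with hφ
  have hφi : Function.Injective φ := RatFunc.algebraMap_injective ℚ
  have hX : φ Polynomial.X = RatFunc.X := RatFunc.algebraMap_X
  have hX0 : (RatFunc.X : RatFunc ℚ) ≠ 0 := RatFunc.X_ne_zero
  have hQ0 : φ Q ≠ 0 := fun h => hQ (hφi (by rw [h, map_zero]))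
  set PQ : ℕ → Polynomial ℚ := fun j => Polynomial.mapRingHom (Int.castRingHom ℚ) (P j) with hPQ
  have htoRat : ∀ j, toRat (P j) = φ (PQ j) := fun j => rfl
  -- the recursion
  have hrec : ∀ k, ∑ x ∈ Finset.HasAntidiagonal.antidiagonal k, D x.1 * PQ x.2 * Polynomial.X ^ (x.1 * n) =
      N k * Polynomial.X ^ (k * n) := by
    intro k
    apply hφi
    have h1 := congrArg (PowerSeries.coeff k) hmul
    rw [PowerSeries.coeff_mul, Polynomial.coeff_coe] at h1
    simp only [Polynomial.coeff_coe, PowerSeries.coeff_mk] at h1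
    rw [map_sum, map_mul, map_pow, hX, hN, ← h1, Finset.mul_sum, Finset.sum_mul]
    refine Finset.sum_congr rfl fun x hx => ?_
    rw [Finset.HasAntidiagonal.mem_antidiagonal] at hx
    rw [map_mul, map_mul, map_pow, hX, hD, htoRat, ← hx, add_mul, pow_add, inv_pow]
    have h2 : (RatFunc.X : RatFunc ℚ) ^ (x.2 * n) ≠ 0 := pow_ne_zero _ hX0
    field_simp
  set M := max den.natDegree num.natDegree with hM
  have hDz : ∀ i, M < i → D i = 0 := by
    intro i hi
    apply hφi
    rw [hD, Polynomial.coeff_eq_zero_of_natDegree_lt (lt_of_le_of_lt (le_max_left _ _) hi),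
      mul_zero, map_zero]
  have hNz : ∀ i, M < i → N i = 0 := by
    intro i hi
    apply hφi
    rw [hN, Polynomial.coeff_eq_zero_of_natDegree_lt (lt_of_le_of_lt (le_max_right _ _) hi),
      mul_zero, map_zero]
  set dP : Polynomial ℚ := ∑ i ∈ Finset.range (M + 1), D i * Polynomial.X ^ (s * (M - i)) with hdP
  set nP : Polynomial ℚ := ∑ i ∈ Finset.range (M + 1), N i * Polynomial.X ^ (s * (M - i)) with hnP
  have hpow : ∀ i ∈ Finset.range (M + 1), (RatFunc.X : RatFunc ℚ) ^ (s * (M - i)) =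
      RatFunc.X ^ (s * M) * (RatFunc.X⁻¹ ^ s) ^ i := by
    intro i hi
    rw [Finset.mem_range] at hi
    have h1 : s * M = s * (M - i) + s * i := by rw [← mul_add, Nat.sub_add_cancel (by omega)]
    rw [h1, pow_add, ← pow_mul, inv_pow, mul_assoc, mul_inv_cancel₀ (pow_ne_zero _ hX0), mul_one]
  have hdφ : φ dP = φ Q * RatFunc.X ^ (s * M) * den.eval (RatFunc.X⁻¹ ^ s) := by
    rw [hdP, map_sum, Polynomial.eval_eq_sum_range' (n := M + 1)
      (Nat.lt_succ_of_le (le_max_left _ _)), Finset.mul_sum]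
    refine Finset.sum_congr rfl fun i hi => ?_
    rw [map_mul, map_pow, hX, hD, hpow i hi]; ring
  have hnφ : φ nP = φ Q * RatFunc.X ^ (s * M) * num.eval (RatFunc.X⁻¹ ^ s) := by
    rw [hnP, map_sum, Polynomial.eval_eq_sum_range' (n := M + 1)
      (Nat.lt_succ_of_le (le_max_right _ _)), Finset.mul_sum]
    refine Finset.sum_congr rfl fun i hi => ?_
    rw [map_mul, map_pow, hX, hN, hpow i hi]; ring
  have hdP0 : dP ≠ 0 := by
    intro h
    rw [h, map_zero] at hdφ
    exact mul_ne_zero (mul_ne_zero hQ0 (pow_ne_zero _ hX0)) hden hdφ.symm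
  set g : RatFunc ℚ := num.eval (RatFunc.X⁻¹ ^ s) / den.eval (RatFunc.X⁻¹ ^ s) with hg
  have hgrel : nP * g.denom = g.num * dP := by
    apply hφi
    have h1 : φ g.num = g * φ g.denom := by
      have h2 := RatFunc.num_div_denom g
      have h3 : φ g.denom ≠ 0 := fun h => RatFunc.denom_ne_zero g (hφi (by rw [h, map_zero]))
      rw [div_eq_iff h3] at h2
      exact h2
    have h4 : num.eval (RatFunc.X⁻¹ ^ s) = g * den.eval (RatFunc.X⁻¹ ^ s) := by
      rw [hg, div_mul_cancel₀ _ hden]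
    rw [map_mul, map_mul, h1, hnφ, hdφ, h4]; ring
  refine limOne_of_tendsto g L (htend.congr' ?_)
  filter_upwards [eventually_er_ne dP hdP0, eventually_er_ne g.denom (RatFunc.denom_ne_zero g),
    self_mem_nhdsWithin] with u hu1 hu2 hu3
  have hu : 1 < u := hu3
  have hu0 : u ≠ 0 := by linarith
  have hup : 0 < u := by linarith
  have hr0 : (0 : ℝ) ≤ u⁻¹ := inv_nonneg.2 hup.le
  have hr1 : u⁻¹ ≤ 1 := inv_le_one_of_one_le₀ hu.le
  -- the recursion at `u`
  have hrecu : ∀ k, ∑ x ∈ Finset.HasAntidiagonal.antidiagonal k,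
      (er u (D x.1) * u⁻¹ ^ (x.1 * s)) *
        (Polynomial.aeval u (P x.2) * u⁻¹ ^ (x.2 * n) * u⁻¹ ^ (x.2 * s)) =
      er u (N k) * u⁻¹ ^ (k * s) := by
    intro k
    have h1 := congrArg (er u) (hrec k)
    rw [er_sum, er_mul, er_Xpow] at h1
    have h2 : er u (N k) = u⁻¹ ^ (k * n) * ∑ x ∈ Finset.HasAntidiagonal.antidiagonal k,
        er u (D x.1 * PQ x.2 * Polynomial.X ^ (x.1 * n)) := by
      rw [h1, inv_pow]
      field_simp
    rw [h2, Finset.mul_sum, Finset.sum_mul]
    refine Finset.sum_congr rfl fun x hx => ?_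
    rw [Finset.HasAntidiagonal.mem_antidiagonal] at hx
    rw [er_mul, er_mul, er_Xpow, er_map, ← hx, add_mul, add_mul, pow_add, pow_add]
    have h3 : u⁻¹ ^ (x.1 * n) * u ^ (x.1 * n) = 1 := by
      rw [← mul_pow, inv_mul_cancel₀ hu0, one_pow]
    linear_combination (-(er u (D x.1) * u⁻¹ ^ (x.1 * s) * (Polynomial.aeval u (P x.2) *
      u⁻¹ ^ (x.2 * n) * u⁻¹ ^ (x.2 * s)))) * h3
  -- the Cauchy product
  have hf : Summable fun i : ℕ => ‖er u (D i) * u⁻¹ ^ (i * s)‖ :=
    summable_of_ne_finset_zero (s := Finset.range (M + 1)) fun i hi => by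
      rw [Finset.mem_range] at hi
      rw [hDz i (by omega), er_zero, zero_mul, norm_zero]
  have hgs : Summable fun k : ℕ =>
      ‖Polynomial.aeval u (P k) * u⁻¹ ^ (k * n) * u⁻¹ ^ (k * s)‖ := by
    refine Summable.of_nonneg_of_le (fun k => norm_nonneg _) (fun k => ?_) (hsum u hu)
    rw [norm_mul, norm_mul, Real.norm_eq_abs, Real.norm_eq_abs, Real.norm_eq_abs,
      abs_of_nonneg (pow_nonneg hr0 (k * n)), abs_of_nonneg (pow_nonneg hr0 (k * s))]
    exact mul_le_of_le_one_right (mul_nonneg (abs_nonneg _) (pow_nonneg hr0 _))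
      (pow_le_one₀ hr0 hr1)
  have hcauchy := tsum_mul_tsum_eq_tsum_sum_antidiagonal_of_summable_norm hf hgs
  simp only [hrecu] at hcauchy
  have hfsum : ∑' i : ℕ, er u (D i) * u⁻¹ ^ (i * s) =
      ∑ i ∈ Finset.range (M + 1), er u (D i) * u⁻¹ ^ (i * s) :=
    tsum_eq_sum fun i hi => by
      rw [Finset.mem_range] at hi
      rw [hDz i (by omega), er_zero, zero_mul]
  have hnsum : ∑' i : ℕ, er u (N i) * u⁻¹ ^ (i * s) =
      ∑ i ∈ Finset.range (M + 1), er u (N i) * u⁻¹ ^ (i * s) :=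
    tsum_eq_sum fun i hi => by
      rw [Finset.mem_range] at hi
      rw [hNz i (by omega), er_zero, zero_mul]
  have hpowu : ∀ i ∈ Finset.range (M + 1), u ^ (s * (M - i)) =
      u ^ (s * M) * u⁻¹ ^ (i * s) := by
    intro i hi
    rw [Finset.mem_range] at hi
    have h1 : s * M = s * (M - i) + i * s := by
      rw [mul_comm i s, ← mul_add, Nat.sub_add_cancel (by omega)]
    rw [h1, pow_add, inv_pow, mul_assoc, mul_inv_cancel₀ (pow_ne_zero _ hu0), mul_one]
  have hdu : er u dP = u ^ (s * M) * ∑ i ∈ Finset.range (M + 1), er u (D i) * u⁻¹ ^ (i * s) := by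
    rw [hdP, er_sum, Finset.mul_sum]
    refine Finset.sum_congr rfl fun i hi => ?_
    rw [er_mul, er_Xpow, hpowu i hi]; ring
  have hnu : er u nP = u ^ (s * M) * ∑ i ∈ Finset.range (M + 1), er u (N i) * u⁻¹ ^ (i * s) := by
    rw [hnP, er_sum, Finset.mul_sum]
    refine Finset.sum_congr rfl fun i hi => ?_
    rw [er_mul, er_Xpow, hpowu i hi]; ring
  have hfin : er u dP * ∑' k : ℕ, Polynomial.aeval u (P k) * u⁻¹ ^ (k * n) * u⁻¹ ^ (k * s) =
      er u nP := by
    rw [hdu, hnu, ← hfsum, ← hnsum, mul_assoc, hcauchy]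
  have hrelu := congrArg (er u) hgrel
  rw [er_mul, er_mul] at hrelu
  have h1 : er u g.num = (er u nP * er u g.denom) / er u dP := by
    rw [hrelu, mul_div_assoc, div_self hu1, mul_one]
  rw [h1, ← hfin]
  field_simp

end Pool.Agent.Mono.NP
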