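import Pool.Agent.Work.Monodromy.Interface14
import Pool.Agent.Work.Monodromy12.IASM12
import Pool.Agent.Work.Monodromy13.LIMA13

/-!
# Phase 14, block RLI14 (helper10): the limits of the zeta function of the model are the values of
a rational function
-/

set_option autoImplicit false

namespace Pool.Agent.Mono.NP

open MvPolynomial Filter Topology

namespace RLI14Aux

/-- the value of a fraction -/
theorem eval_frac (p q : Polynomial ℚ) (s : ℚ) (hq : q.eval s ≠ 0) :
    (algebraMap (Polynomial ℚ) (RatFunc ℚ) p / algebraMap (Polynomial ℚ) (RatFunc ℚ) q).eval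
      (RingHom.id ℚ) s = p.eval s / q.eval s := by
  have hq0 : q ≠ 0 := fun h => hq (by rw [h, Polynomial.eval_zero])
  set R : RatFunc ℚ := algebraMap (Polynomial ℚ) (RatFunc ℚ) p /
    algebraMap (Polynomial ℚ) (RatFunc ℚ) q with hR
  have hd : R.denom ∣ q := RatFunc.denom_div_dvd p q
  have hd0 : R.denom.eval s ≠ 0 := by
    obtain ⟨c, hc⟩ := hd
    intro h
    apply hq
    rw [hc, Polynomial.eval_mul, h, zero_mul]
  have h1 : R.num * q = p * R.denom := by
    have hQ' : algebraMap (Polynomial ℚ) (RatFunc ℚ) R.denom ≠ 0 :=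
      RatFunc.algebraMap_ne_zero R.denom_ne_zero
    have hq' : algebraMap (Polynomial ℚ) (RatFunc ℚ) q ≠ 0 := RatFunc.algebraMap_ne_zero hq0
    have h2 : algebraMap (Polynomial ℚ) (RatFunc ℚ) R.num /
        algebraMap (Polynomial ℚ) (RatFunc ℚ) R.denom =
        algebraMap (Polynomial ℚ) (RatFunc ℚ) p / algebraMap (Polynomial ℚ) (RatFunc ℚ) q := by
      rw [RatFunc.num_div_denom]
    rw [div_eq_div_iff hQ' hq', ← map_mul, ← map_mul] at h2
    exact RatFunc.algebraMap_injective ℚ h2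
  have h2 : R.eval (RingHom.id ℚ) s = R.num.eval s / R.denom.eval s := by
    simp [RatFunc.eval]
  rw [h2, div_eq_div_iff hd0 hq, ← Polynomial.eval_mul, ← Polynomial.eval_mul, h1]

/-- the value of `pref e * P / D + c` -/
theorem eval_pref (P D : Polynomial ℚ) (c : ℚ) (e s : ℕ) (hD : D.eval (s : ℚ) ≠ 0) :
    (pref e * (algebraMap (Polynomial ℚ) (RatFunc ℚ) P /
        algebraMap (Polynomial ℚ) (RatFunc ℚ) D) + RatFunc.C c).eval (RingHom.id ℚ) (s : ℚ) =
      (if e = 1 then -(s : ℚ) / (s + 1) else -1) * (P.eval (s : ℚ) / D.eval (s : ℚ)) + c := by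
  have hs1 : (s : ℚ) + 1 ≠ 0 := by positivity
  have hD0 : D ≠ 0 := fun h => hD (by rw [h, Polynomial.eval_zero])
  set pn : Polynomial ℚ := if e = 1 then -Polynomial.X else -(Polynomial.X + 1) with hpn
  have hX1 : (Polynomial.X + 1 : Polynomial ℚ) ≠ 0 := by
    intro hc
    have := congrArg (Polynomial.eval (0 : ℚ)) hc
    simp at this
  have hXm : (RatFunc.X + 1 : RatFunc ℚ) =
      algebraMap (Polynomial ℚ) (RatFunc ℚ) (Polynomial.X + 1) := by
    rw [map_add, RatFunc.algebraMap_X, map_one]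
  have hX1' : algebraMap (Polynomial ℚ) (RatFunc ℚ) (Polynomial.X + 1) ≠ 0 :=
    RatFunc.algebraMap_ne_zero hX1
  have hD' : algebraMap (Polynomial ℚ) (RatFunc ℚ) D ≠ 0 := RatFunc.algebraMap_ne_zero hD0
  have hpref : pref e = algebraMap (Polynomial ℚ) (RatFunc ℚ) pn /
      algebraMap (Polynomial ℚ) (RatFunc ℚ) (Polynomial.X + 1) := by
    unfold pref
    rw [hpn]
    by_cases he : e = 1
    · rw [if_pos he, if_pos he, hXm, map_neg, RatFunc.algebraMap_X]
    · rw [if_neg he, if_neg he, eq_div_iff hX1', map_neg]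
      ring
  have h1 : pref e * (algebraMap (Polynomial ℚ) (RatFunc ℚ) P /
        algebraMap (Polynomial ℚ) (RatFunc ℚ) D) + RatFunc.C c =
      algebraMap (Polynomial ℚ) (RatFunc ℚ)
        (pn * P + Polynomial.C c * ((Polynomial.X + 1) * D)) /
      algebraMap (Polynomial ℚ) (RatFunc ℚ) ((Polynomial.X + 1) * D) := by
    have e1 : algebraMap (Polynomial ℚ) (RatFunc ℚ)
        (pn * P + Polynomial.C c * ((Polynomial.X + 1) * D)) =
        algebraMap (Polynomial ℚ) (RatFunc ℚ) pn * algebraMap (Polynomial ℚ) (RatFunc ℚ) P +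
          algebraMap (Polynomial ℚ) (RatFunc ℚ) (Polynomial.C c) *
          (algebraMap (Polynomial ℚ) (RatFunc ℚ) (Polynomial.X + 1) *
            algebraMap (Polynomial ℚ) (RatFunc ℚ) D) := by
      rw [map_add _ (pn * P), map_mul, map_mul, map_mul]
    rw [hpref, e1, map_mul, ← RatFunc.algebraMap_C]
    field_simp
  rw [h1, eval_frac]
  · have h3 : pn.eval (s : ℚ) = (if e = 1 then -(s : ℚ) / (s + 1) else -1) * (s + 1) := by
      rw [hpn]
      by_cases he : e = 1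
      · rw [if_pos he, if_pos he, div_mul_cancel₀ _ hs1]
        simp
      · rw [if_neg he, if_neg he]
        simp
    simp only [Polynomial.eval_mul, Polynomial.eval_add, Polynomial.eval_C,
      Polynomial.eval_X, Polynomial.eval_one]
    rw [h3]
    field_simp
  · rw [Polynomial.eval_mul, Polynomial.eval_add, Polynomial.eval_X, Polynomial.eval_one]
    exact mul_ne_zero hs1 hD

end RLI14Aux

open RLI14Aux

/-- block RLI14 -/
theorem stmt_RLI14 (hEXCH : Stmt_EXCH) (hRLM : Stmt_RLM14) (hJC : Stmt_JC) (hGENR : Stmt_GENR)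
    (hREL : Stmt_REL) : Stmt_RLI14 := by
  classical
  intro E ι κ _ _ _ _ _ w a h e P D hw ha hh hfull he hTf hD
  refine ⟨fun d u hd hu =>
    (hEXCH ι κ w a E.toHodgeMeasure d u 0 (LIMA13Aux.nd_of_ndP w a ha) hd hu).1, ?_⟩
  obtain ⟨c, hc⟩ := hRLM E ι κ w a h e hw ha hh hfull he
  obtain ⟨ζ, hζ, hgen⟩ := hGENR ι κ w h hh
  have hD0 : IASMAux.lineP D ≠ 0 := by
    intro h0
    apply hD
    rw [IASMAux.aeval_line, h0, map_zero]
  have hev : ∀ᶠ s : ℕ in atTop, (IASMAux.lineP D).eval (s : ℚ) ≠ 0 := by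
    have hfin : {s : ℕ | (IASMAux.lineP D).eval (s : ℚ) = 0}.Finite := by
      have h1 := Polynomial.finite_setOfPred_isRoot hD0
      exact h1.preimage (Nat.cast_injective.injOn)
    have h2 := hfin.compl_mem_cofinite
    rw [← Nat.cofinite_eq_atTop]
    exact h2
  refine ⟨-c, ?_⟩
  filter_upwards [hev, eventually_ge_atTop 1] with s hDs hs
  have hs0 : (0 : ℝ) < s := by exact_mod_cast hs
  have hJ : ∀ C : Finset κ, ∃ J : ℝ, C ∈ cls0 w h →
      Tendsto (fun ε : ℝ => ε ^ (Fintype.card ι + 1 - C.card) *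
        Fs w C (pz (fun _ => 0) (s : ℝ) 0) ε) (𝓝[>] 0) (𝓝 J) ∧
      Tendsto (fun η : ℝ => (nuE w 1 C : ℝ) * Itg w h (inl C) 1 (pz ζ (s : ℝ) η)) (𝓝[>] 0)
        (𝓝 J) := by
    intro C
    by_cases hC : C ∈ cls0 w h
    · obtain ⟨J, h1⟩ := hJC ι κ w h hh ζ s hζ hs0 (hgen s hs0) C hC
      exact ⟨J, fun _ => h1⟩
    · exact ⟨0, fun hC' => absurd hC' hC⟩
  choose J hJ using hJ
  have h1 := hc s J hs (fun C hC => (hJ C hC).1)
  set S : ℝ := ∑ C ∈ cls0 w h, (-1) ^ (C.card + 1) * ((nuE w e C : ℝ) -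
        (if e = 1 ∧ 2 ≤ C.card then (nuE w 1 C : ℝ) / (1 + s) else 0)) * J C with hS
  -- the limit of the sums
  have h2 : Tendsto (fun η : ℝ => ∑ C ∈ cls0 w h, (-1) ^ (C.card + 1) * ((nuE w e C : ℝ) -
        (if e = 1 ∧ 2 ≤ C.card then (nuE w 1 C : ℝ) / (1 + s) else 0)) *
          ((nuE w 1 C : ℝ) * Itg w h (inl C) 1 (pz ζ (s : ℝ) η))) (𝓝[>] 0) (𝓝 S) := by
    apply tendsto_finsetSum
    intro C hC
    exact ((hJ C hC).2).const_mul _
  have h3 := h2.mul (IASMAux.tendsto_aeval ζ s D)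
  have h4 := (IASMAux.tendsto_aeval ζ s P).const_mul (if e = 1 then -(s : ℝ) / (s + 1) else -1)
  have h5 : (fun η : ℝ => (∑ C ∈ cls0 w h, (-1) ^ (C.card + 1) * ((nuE w e C : ℝ) -
        (if e = 1 ∧ 2 ≤ C.card then (nuE w 1 C : ℝ) / (1 + s) else 0)) *
          ((nuE w 1 C : ℝ) * Itg w h (inl C) 1 (pz ζ (s : ℝ) η))) *
            (aeval (pz ζ (s : ℝ) η) D : ℝ)) =ᶠ[𝓝[>] 0]
      fun η : ℝ => (if e = 1 then -(s : ℝ) / (s + 1) else -1) *
        (aeval (pz ζ (s : ℝ) η) P : ℝ) := by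
    filter_upwards [hgen s hs0] with η hη
    rw [IASMAux.main_id hREL w h hh e s (pz ζ (s : ℝ) η) hη rfl, mul_assoc, hTf _ hη]
  have h6 := tendsto_nhds_unique_of_eventuallyEq h3 h4 h5
  rw [IASMAux.aeval_pz, IASMAux.aeval_pz] at h6
  have hDs' : (((IASMAux.lineP D).eval (s : ℚ) : ℚ) : ℝ) ≠ 0 := by exact_mod_cast hDs
  have h7 : S - (c : ℝ) = ((((pref e * (aeval (line ι) P / aeval (line ι) D) +
      RatFunc.C (-c)).eval (RingHom.id ℚ) (s : ℚ) : ℚ)) : ℝ) := by
    rw [IASMAux.aeval_line, IASMAux.aeval_line, eval_pref _ _ _ _ _ hDs]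
    have h8 : S = (if e = 1 then -(s : ℝ) / (s + 1) else -1) *
        (((IASMAux.lineP P).eval (s : ℚ) : ℚ) : ℝ) /
          (((IASMAux.lineP D).eval (s : ℚ) : ℚ) : ℝ) := by
      rw [eq_div_iff hDs', h6]
    rw [h8]
    push_cast
    split_ifs
    · push_cast
      ring
    · push_cast
      ring
  rw [h7] at h1
  exact h1

end Pool.Agent.Mono.NP
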