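import Pool.Agent.Work.Monodromy.Interface14
import Pool.Agent.Work.Monodromy13.LIMA13
import Pool.Agent.Work.Monodromy12.LIMB12

/-!
# Phase 14, block RLM14: limits of the series over real numbers (helper28; from LIMB12 of helper52 and
LIMA13)
-/

set_option autoImplicit false

namespace Pool.Agent.Mono.NP

open MvPolynomial Filter Topology

namespace RLM14Aux

/-- the series without the term `m = 0` -/
theorem tsum_drop (n : ℕ) (Q : ℕ → Polynomial ℤ) (s : ℕ) (u : ℝ) (hu : 1 < u)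
    (hs : Summable fun k : ℕ => |Polynomial.aeval u (Q k)| * u⁻¹ ^ (k * n)) :
    (∑' m : ℕ, if m = 0 then 0 else
      Polynomial.aeval u (Q m) * u⁻¹ ^ (m * n) * u⁻¹ ^ (m * s)) =
    (∑' m : ℕ, Polynomial.aeval u (Q m) * u⁻¹ ^ (m * n) * u⁻¹ ^ (m * s)) -
      Polynomial.aeval u (Q 0) := by
  have hu0 : 0 ≤ u⁻¹ := inv_nonneg.2 (by linarith)
  have hu2 : u⁻¹ ≤ 1 := inv_le_one_of_one_le₀ hu.le
  have hsum : Summable fun k : ℕ => Polynomial.aeval u (Q k) * u⁻¹ ^ (k * n) *
      u⁻¹ ^ (k * s) := by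
    refine Summable.of_norm_bounded hs fun k => ?_
    rw [Real.norm_eq_abs, abs_mul, abs_mul, abs_of_nonneg (pow_nonneg hu0 (k * n)),
      abs_of_nonneg (pow_nonneg hu0 (k * s))]
    exact mul_le_of_le_one_right (mul_nonneg (abs_nonneg _) (pow_nonneg hu0 _))
      (pow_le_one₀ hu0 hu2)
  have h3 : HasSum (fun k : ℕ => if k = 0 then Polynomial.aeval u (Q 0) else 0)
      (Polynomial.aeval u (Q 0)) := hasSum_ite_eq 0 _
  have h4 := hsum.hasSum.sub h3
  rw [← h4.tsum_eq]
  refine tsum_congr fun k => ?_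
  by_cases hk : k = 0
  · rw [if_pos hk, if_pos hk, hk]
    simp
  · rw [if_neg hk, if_neg hk, sub_zero]

theorem log_tendsto : Tendsto (fun u : ℝ => Real.log u) (𝓝[>] 1) (𝓝[>] 0) := by
  refine tendsto_nhdsWithin_iff.2 ⟨?_, ?_⟩
  · have h := (Real.continuousAt_log (x := 1) one_ne_zero).tendsto.mono_left
      (nhdsWithin_le_nhds (s := Set.Ioi (1 : ℝ)))
    rwa [Real.log_one] at h
  · filter_upwards [self_mem_nhdsWithin] with u hu
    exact Real.log_pos hu

end RLM14Aux

open LIMAAux LIMBAux RLM14Aux in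
theorem stmt_RLM14 (hEXCH : Stmt_EXCH) (hKF : Stmt_KF13) (hKW : Stmt_KW13)
    (hSMPF : Stmt_SMPF) (hGRK : Stmt_GRK) (hCELI : Stmt_CELI) : Stmt_RLM14 := by
  classical
  intro E ι κ _ _ _ _ _ w a h e hinj ha hh hfull he
  set n : ℕ := Fintype.card ι with hn
  have hNd := LIMA13Aux.nd_of_ndP w a ha
  have hd1 : ∀ d ∈ e.divisors, 1 ≤ d := fun d hd => Nat.pos_of_mem_divisors hd
  set c : ℚ := ∑ d ∈ e.divisors, ((ArithmeticFunction.moebius (e / d) : ℤ) : ℚ) *
    (((E.val (jetSet (poly w a) d 0)).eval 1 : ℤ) : ℚ) with hc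
  refine ⟨c, fun s J hs hJ => ?_⟩
  have hlim := LIMA13Aux.faces_lim hKF hKW hSMPF hGRK hCELI E w a h e hinj ha hh hfull he s J hJ
  -- the series as sums over the faces
  have hface : ∀ d ∈ e.divisors, ∀ ε : ℝ, 0 < ε → (∑' K : ℕ,
      Polynomial.aeval (Real.exp ε) (E.val (jetSet (poly w a) d K)) *
        (Real.exp ε)⁻¹ ^ (K * n) * (Real.exp ε)⁻¹ ^ (K * s)) =
      ∑ F : Finset κ, SF w s F ε * (Polynomial.aeval (Real.exp ε) (E.val (WF w a d F)) +
            Polynomial.aeval (Real.exp ε) (E.val (VF w a F)) *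
              ((Real.exp ε - 1) / (Real.exp ε ^ (s + 1) - 1))) := by
    intro d hd ε hε
    have h1 := (hEXCH ι κ w a E.toHodgeMeasure d (Real.exp ε) s hNd (hd1 d hd)
      (Real.one_lt_exp_iff.2 hε)).2
    refine sum_faces hGRK w s ε hε (fun F => Polynomial.aeval (Real.exp ε) (E.val (WF w a d F)) +
            Polynomial.aeval (Real.exp ε) (E.val (VF w a F)) *
              ((Real.exp ε - 1) / (Real.exp ε ^ (s + 1) - 1))) _ ?_
    refine h1.congr_fun ?_
    intro k
    rw [ex_eq]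
  -- the terms `m = 0`
  have hzero : Tendsto (fun ε : ℝ => ∑ d ∈ e.divisors,
      ((ArithmeticFunction.moebius (e / d) : ℤ) : ℝ) *
        Polynomial.aeval (Real.exp ε) (E.val (jetSet (poly w a) d 0))) (𝓝[>] 0) (𝓝 (c : ℝ)) := by
    have h1 : (c : ℝ) = ∑ d ∈ e.divisors, ((ArithmeticFunction.moebius (e / d) : ℤ) : ℝ) *
        (((E.val (jetSet (poly w a) d 0)).eval 1 : ℤ) : ℝ) := by
      rw [hc]
      push_cast
      rfl
    rw [h1]
    exact tendsto_finsetSum _ fun d _ => (tendsto_aeval _).const_mul _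
  -- the combination
  have hcomb := (hlim.sub hzero).comp log_tendsto
  refine hcomb.congr' ?_
  filter_upwards [self_mem_nhdsWithin] with u hu
  have hu1 : 1 < u := hu
  have hu0 : 0 < u := by linarith
  have hε : 0 < Real.log u := Real.log_pos hu1
  simp only [Function.comp_apply]
  have hd2 : ∀ d ∈ e.divisors, (∑' m : ℕ, if m = 0 then 0 else
      Polynomial.aeval u (E.val (jetSet (poly w a) d m)) * u⁻¹ ^ (m * n) * u⁻¹ ^ (m * s)) =
      ∑ F : Finset κ, SF w s F (Real.log u) *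
        (Polynomial.aeval (Real.exp (Real.log u)) (E.val (WF w a d F)) +
            Polynomial.aeval (Real.exp (Real.log u)) (E.val (VF w a F)) *
              ((Real.exp (Real.log u) - 1) / (Real.exp (Real.log u) ^ (s + 1) - 1))) -
        Polynomial.aeval (Real.exp (Real.log u)) (E.val (jetSet (poly w a) d 0)) := by
    intro d hd
    rw [← hface d hd _ hε, Real.exp_log hu0]
    exact tsum_drop n (fun K => E.val (jetSet (poly w a) d K)) s u hu1
      (hEXCH ι κ w a E.toHodgeMeasure d u 0 hNd (hd1 d hd) hu1).1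
  symm
  rw [zL, Finset.sum_congr rfl fun d hd => by rw [hd2 d hd]]
  simp only [mul_sub, Finset.sum_sub_distrib]
  congr 1
  simp only [Finset.mul_sum]
  rw [Finset.sum_comm]
  refine Finset.sum_congr rfl fun F _ => ?_
  refine Finset.sum_congr rfl fun d _ => ?_
  ring

end Pool.Agent.Mono.NP
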