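import Pool.Agent.Work.Monodromy9.All9
import Pool.Agent.Work.Monodromy13.All13
import Pool.Agent.Work.Monodromy14.ASM14
import Pool.Agent.Work.Monodromy14.CMP14
import Pool.Agent.Work.Monodromy14.COM14
import Pool.Agent.Work.Monodromy14.CRG14
import Pool.Agent.Work.Monodromy14.DEC14
import Pool.Agent.Work.Monodromy14.EIG14
import Pool.Agent.Work.Monodromy14.FIN14
import Pool.Agent.Work.Monodromy14.GEN14
import Pool.Agent.Work.Monodromy14.GEO14
import Pool.Agent.Work.Monodromy14.GLU14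
import Pool.Agent.Work.Monodromy14.ISL14
import Pool.Agent.Work.Monodromy14.NWT14
import Pool.Agent.Work.Monodromy14.PTG14
import Pool.Agent.Work.Monodromy14.Q514
import Pool.Agent.Work.Monodromy14.RAT14
import Pool.Agent.Work.Monodromy14.RLI14
import Pool.Agent.Work.Monodromy14.RLM14
import Pool.Agent.Work.Monodromy.StatementF

/-!
# Phase 14, assembly: isolated nondegenerate singularities and singularities of corank at most two
(helper2)
-/

set_option autoImplicit false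

namespace Pool.Agent.Mono.NP

open MvPolynomial FinalAux

theorem full_SPEC : Stmt_SPEC :=
  stmt_SPEC (stmt_UBD stmt_MW stmt_GOR (stmt_ABS (stmt_NUL stmt_TOR))) (stmt_SEQ stmt_KG)

theorem full_GEO14 : Stmt_GEO14 :=
  stmt_GEO14 stmt_ISL14 stmt_NWT14 stmt_CMP14 (stmt_GEN14 (stmt_FACE stmt_MW)) stmt_CRG14

theorem full_RLI14 : Stmt_RLI14 :=
  stmt_RLI14 (stmt_EXCH full_SUMK) (stmt_RLM14 (stmt_EXCH full_SUMK) full_KF13 full_KW13 full_SMPF full_GRK stmt_CELI)
    full_JC (stmt_GENR full_DUAL) full_REL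

/-- the hypothesis of the theorem -/
theorem hyp14 {n : ℕ} {f : MvPolynomial (Fin n) ℂ}
    (h : ∀ p : Fin n → ℂ, eval p f = 0 → (∀ i, eval p (pderiv i f) = 0) →
      n ≤ (Matrix.of fun i j => eval p (pderiv i (pderiv j f))).rank + 2 ∨
        IsSemiQuasiHomogeneousAt f p ∨ IsIsolatedNondegenerateAt f p) :
    ∀ p ∈ SP.Crit0 f, Fintype.card (Fin n) ≤ (SP.Hs f p).rank + 2 ∨ (∃ r, RO.SQAt f p r) ∨
      NdAt f p := by
  intro p hp
  rcases h p hp.1 hp.2 with h | h | h
  · left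
    rw [Fintype.card_fin]
    exact h
  · exact Or.inr (Or.inl (RO.sqAt_of h))
  · refine Or.inr (Or.inr ?_)
    obtain ⟨⟨s, hs, hs'⟩, φ, h1, h2, h3⟩ := h
    exact ⟨⟨s, hs, fun q hq => hs' q hq.1 hq.2⟩, φ, ⟨h1, h2⟩, fun k hk x hx => h3 k x hk hx⟩

/-- the monodromy conjecture for the twisted topological zeta functions of polynomials whose
singularities have corank at most two, are semi-quasi-homogeneous, or isolated and nondegenerate -/
theorem mc14_tw (E : EulerMeasure) {n : ℕ} (f : MvPolynomial (Fin n) ℂ) (hf : f.totalDegree ≠ 0)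
    (h : ∀ p : Fin n → ℂ, eval p f = 0 → (∀ i, eval p (pderiv i f) = 0) →
      n ≤ (Matrix.of fun i j => eval p (pderiv i (pderiv j f))).rank + 2 ∨
        IsSemiQuasiHomogeneousAt f p ∨ IsIsolatedNondegenerateAt f p)
    (e : ℕ) (he : 1 ≤ e) (R : RatFunc ℚ) (hR : IsTwTopZeta E.toHodgeMeasure f e R) :
    GoodPoles f R :=
  good14 full_GEO14 (stmt_PTG14 stmt_GNR full_SPEC)
    (stmt_EIG14 C9.stmt_CTW9 C9.stmt_W5F9) full_RLI14 (stmt_GLU14 stmt_RAT14 stmt_Q514)
    stmt_FIN14 (stmt_COM14 C9.rnk9 C9.gen9 C9.vgg9 C9.spc9) (stmt_DEC14 C9.stmt_CTV9) E f hf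
    (hyp14 h) e he R hR

/-- the monodromy conjecture for the topological zeta function of these polynomials -/
theorem mc14 (E : EulerMeasure) {n : ℕ} (f : MvPolynomial (Fin n) ℂ) (hf : f.totalDegree ≠ 0)
    (h : ∀ p : Fin n → ℂ, eval p f = 0 → (∀ i, eval p (pderiv i f) = 0) →
      n ≤ (Matrix.of fun i j => eval p (pderiv i (pderiv j f))).rank + 2 ∨
        IsSemiQuasiHomogeneousAt f p ∨ IsIsolatedNondegenerateAt f p)
    (R : RatFunc ℚ) (hR : IsTopologicalZeta E.toHodgeMeasure f R) : GoodPoles f R := by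
  obtain ⟨q, hq⟩ := isLim_zetaSer1 E.toHodgeMeasure f 1 R ((isTopologicalZeta_iff _ f R).1 hR)
  have h1 : IsTwTopZeta E.toHodgeMeasure f 1 (R + RatFunc.C q) := by
    refine ⟨fun _ => R + RatFunc.C q, fun d hd => ?_, ?_⟩
    · rw [Nat.divisors_one, Finset.mem_singleton] at hd
      rw [hd]
      exact hq
    · simp
  intro s hs
  exact mc14_tw E f hf h 1 le_rfl _ h1 s (SSAux.pole_add_C hs)

end Pool.Agent.Mono.NP
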