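import Pool.Agent.Work.Monodromy.Interface14
import Pool.Agent.Work.Monodromy.Lin
import Pool.Agent.Work.Monodromy4.Q5

/-!
# GLU14: gluing of zeta functions with known real limits (helper73)
-/

set_option autoImplicit false

namespace Pool.Agent.Mono.NP

open MvPolynomial Filter Topology

namespace GLU14Aux

theorem limOne_C (q : ℚ) : LimOne (RatFunc.C q) q := by
  have h := LimOne.algebraMap (Polynomial.C q)
  rw [Polynomial.eval_C] at h
  exact h

theorem limOne_sub {g g' : RatFunc ℚ} {v v' : ℚ} (h : LimOne g v) (h' : LimOne g' v') :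
    LimOne (g - g') (v - v') := by
  have h1 := h.add ((limOne_C (-1)).mul h')
  have e1 : g + RatFunc.C (-1) * g' = g - g' := by
    rw [map_neg, map_one]
    ring
  have e2 : v + -1 * v' = v - v' := by ring
  rwa [e1, e2] at h1

theorem div_aux {F : Type} [Field F] {a b c d : F} (hb : b ≠ 0) (hd : d ≠ 0) :
    a / b - (a * d - c * b) / (b * d) = c / d := by
  field_simp
  ring

theorem isLim_sum {α : Type} (F : Finset α) (Z : α → PowerSeries (RatFunc ℚ)) (R : α → RatFunc ℚ)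
    (h : ∀ a ∈ F, IsLim (Z a) (R a)) : IsLim (∑ a ∈ F, Z a) (∑ a ∈ F, R a) := by
  classical
  induction F using Finset.induction_on with
  | empty => simpa using IsLim.zero
  | insert a F ha ih =>
    rw [Finset.sum_insert ha, Finset.sum_insert ha]
    exact (h a (Finset.mem_insert_self a F)).add
      (ih fun b hb => h b (Finset.mem_insert_of_mem hb))

theorem ev_den (g : RatFunc ℚ) : ∀ᶠ s : ℕ in atTop, g.denom.eval (s : ℚ) ≠ 0 := by
  have hfin : {s : ℕ | g.denom.eval (s : ℚ) = 0}.Finite := by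
    have h1 : ((g.denom.roots.toFinset : Finset ℚ) : Set ℚ).Finite := Finset.finite_toSet _
    refine (h1.preimage (f := fun s : ℕ => (s : ℚ)) (Nat.cast_injective.injOn)).subset
      fun s hs => ?_
    rw [Set.mem_preimage, Finset.mem_coe, Multiset.mem_toFinset,
      Polynomial.mem_roots (RatFunc.denom_ne_zero g)]
    exact hs
  have h2 := hfin.eventually_cofinite_notMem
  rw [Nat.cofinite_eq_atTop] at h2
  exact h2

theorem eval_add' {f g : RatFunc ℚ} {s : ℕ} (hf : f.denom.eval (s : ℚ) ≠ 0)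
    (hg : g.denom.eval (s : ℚ) ≠ 0) :
    (f + g).eval (RingHom.id ℚ) (s : ℚ) =
      f.eval (RingHom.id ℚ) (s : ℚ) + g.eval (RingHom.id ℚ) (s : ℚ) :=
  RatFunc.eval_add _ _ (by simpa [Polynomial.eval₂_id] using hf)
    (by simpa [Polynomial.eval₂_id] using hg)

theorem ev_sum {α : Type} (F : Finset α) (V : α → RatFunc ℚ) :
    ∀ᶠ s : ℕ in atTop, (∑ b ∈ F, V b).eval (RingHom.id ℚ) (s : ℚ) =
      ∑ b ∈ F, (V b).eval (RingHom.id ℚ) (s : ℚ) := by
  classical
  induction F using Finset.induction_on with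
  | empty => exact Filter.Eventually.of_forall fun s => by simp [RatFunc.eval_zero]
  | insert a F ha ih =>
    filter_upwards [ih, ev_den (V a), ev_den (∑ b ∈ F, V b)] with s h1 h2 h3
    rw [Finset.sum_insert ha, Finset.sum_insert ha, eval_add' h2 h3, h1]

theorem ESeq_sum {α : Type} (Λ : Set ℚ) (F : Finset α) (κ : α → ℕ → TS.K)
    (h : ∀ a ∈ F, TS.ESeq Λ (κ a)) : TS.ESeq Λ fun m => ∑ a ∈ F, κ a m := by
  classical
  induction F using Finset.induction_on with
  | empty =>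
    exact TS.Q1Aux.fin 0 fun m _ => by simp
  | insert a F ha ih =>
    have h1 := TS.Q1Aux.add (h a (Finset.mem_insert_self a F))
      (ih fun b hb => h b (Finset.mem_insert_of_mem hb))
    simpa only [Finset.sum_insert ha] using h1

theorem denP_coeff (l : List (ℕ × ℕ)) (hl : ∀ q ∈ l, 1 ≤ q.1) : (TS.denP l).coeff 0 ≠ 0 := by
  induction l with
  | nil => simp [TS.denP]
  | cons q l ih =>
    rw [TS.Q1Aux.denP_cons, Polynomial.mul_coeff_zero]
    refine mul_ne_zero ?_ (ih fun q' hq' => hl q' (List.mem_cons_of_mem _ hq'))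
    have h1 : q.1 ≠ 0 := by
      have := hl q List.mem_cons_self
      omega
    rw [Polynomial.coeff_sub, Polynomial.coeff_C_mul, Polynomial.coeff_X_pow, if_neg h1.symm]
    simp

/-- the combined polynomials -/
noncomputable def PG {β : Type} [Fintype β] (Q : β → ℕ → ℕ → Polynomial ℤ) (e m : ℕ) :
    Polynomial ℤ :=
  if m = 0 then 0 else ∑ d ∈ e.divisors,
    Polynomial.C (ArithmeticFunction.moebius (e / d)) * ∑ b, Q b d m

theorem toRat_C (z : ℤ) : toRat (Polynomial.C z) = RatFunc.C (z : ℚ) := by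
  have h : (Polynomial.C z : Polynomial ℤ) = (z : Polynomial ℤ) := by simp
  rw [h, map_intCast]
  have h2 : (RatFunc.C (z : ℚ) : RatFunc ℚ) = ((z : ℤ) : RatFunc ℚ) := by
    rw [map_intCast]
  rw [h2]

theorem toRat_PG {β : Type} [Fintype β] (Q : β → ℕ → ℕ → Polynomial ℤ) (e n m : ℕ) :
    toRat (PG Q e m) * (RatFunc.X)⁻¹ ^ (m * n) = ∑ d ∈ e.divisors,
      RatFunc.C ((ArithmeticFunction.moebius (e / d) : ℤ) : ℚ) *
        ∑ b, if m = 0 then 0 else toRat (Q b d m) * (RatFunc.X)⁻¹ ^ (m * n) := by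
  unfold PG
  split_ifs with h
  · simp
  · rw [map_sum, Finset.sum_mul]
    refine Finset.sum_congr rfl fun d _ => ?_
    rw [map_mul, toRat_C, map_sum, mul_assoc, Finset.sum_mul]

theorem aeval_PG {β : Type} [Fintype β] (Q : β → ℕ → ℕ → Polynomial ℤ) (e m : ℕ) (u : ℝ) :
    Polynomial.aeval u (PG Q e m) = if m = 0 then 0 else ∑ d ∈ e.divisors,
      ((ArithmeticFunction.moebius (e / d) : ℤ) : ℝ) * ∑ b, Polynomial.aeval u (Q b d m) := by
  unfold PG
  split_ifs with h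
  · simp
  · rw [map_sum]
    refine Finset.sum_congr rfl fun d _ => ?_
    rw [map_mul, Polynomial.aeval_C, map_sum]
    rfl

theorem summable_PG {β : Type} [Fintype β] (Q : β → ℕ → ℕ → Polynomial ℤ) (e n : ℕ)
    (hQ : ∀ b, SmL n (Q b)) (u : ℝ) (hu : 1 < u) :
    Summable fun m : ℕ => |Polynomial.aeval u (PG Q e m)| * u⁻¹ ^ (m * n) := by
  have hr0 : (0 : ℝ) ≤ u⁻¹ := inv_nonneg.2 (by linarith)
  have hs : Summable fun m : ℕ => ∑ d ∈ e.divisors,
      |((ArithmeticFunction.moebius (e / d) : ℤ) : ℝ)| *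
        ∑ b, |Polynomial.aeval u (Q b d m)| * u⁻¹ ^ (m * n) := by
    refine summable_sum fun d hd => ?_
    refine Summable.mul_left _ ?_
    refine summable_sum fun b _ => ?_
    exact hQ b d u (Nat.pos_of_mem_divisors hd) hu
  refine Summable.of_nonneg_of_le (fun m => mul_nonneg (abs_nonneg _) (pow_nonneg hr0 _))
    (fun m => ?_) hs
  rw [aeval_PG]
  split_ifs with h
  · rw [abs_zero, zero_mul]
    refine Finset.sum_nonneg fun d _ => mul_nonneg (abs_nonneg _)
      (Finset.sum_nonneg fun b _ => mul_nonneg (abs_nonneg _) (pow_nonneg hr0 _))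
  · have h1 : |∑ d ∈ e.divisors, ((ArithmeticFunction.moebius (e / d) : ℤ) : ℝ) *
        ∑ b, Polynomial.aeval u (Q b d m)| ≤ ∑ d ∈ e.divisors,
        |((ArithmeticFunction.moebius (e / d) : ℤ) : ℝ)| *
          ∑ b, |Polynomial.aeval u (Q b d m)| := by
      refine (Finset.abs_sum_le_sum_abs _ _).trans (Finset.sum_le_sum fun d _ => ?_)
      rw [abs_mul]
      exact mul_le_mul_of_nonneg_left (Finset.abs_sum_le_sum_abs _ _) (abs_nonneg _)
    refine (mul_le_mul_of_nonneg_right h1 (pow_nonneg hr0 _)).trans (le_of_eq ?_)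
    rw [Finset.sum_mul]
    refine Finset.sum_congr rfl fun d _ => ?_
    rw [mul_assoc, Finset.sum_mul]

theorem tsum_PG {β : Type} [Fintype β] (Q : β → ℕ → ℕ → Polynomial ℤ) (e n s : ℕ)
    (hQ : ∀ b, SmL n (Q b)) (u : ℝ) (hu : 1 < u) :
    ∑' m : ℕ, Polynomial.aeval u (PG Q e m) * u⁻¹ ^ (m * n) * u⁻¹ ^ (m * s) =
      ∑ b, zL n (Q b) e s u := by
  have hr0 : (0 : ℝ) ≤ u⁻¹ := inv_nonneg.2 (by linarith)
  have hr1 : u⁻¹ ≤ 1 := inv_le_one_of_one_le₀ hu.le
  have h1 : ∀ b, ∀ d ∈ e.divisors, Summable fun m : ℕ => if m = 0 then (0 : ℝ) else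
      Polynomial.aeval u (Q b d m) * u⁻¹ ^ (m * n) * u⁻¹ ^ (m * s) := by
    intro b d hd
    refine Summable.of_norm_bounded (hQ b d u (Nat.pos_of_mem_divisors hd) hu) fun m => ?_
    split_ifs with h
    · rw [norm_zero]
      exact mul_nonneg (abs_nonneg _) (pow_nonneg hr0 _)
    · rw [norm_mul, norm_mul, Real.norm_eq_abs, Real.norm_eq_abs, Real.norm_eq_abs,
        abs_of_nonneg (pow_nonneg hr0 (m * n)), abs_of_nonneg (pow_nonneg hr0 (m * s))]
      exact mul_le_of_le_one_right (mul_nonneg (abs_nonneg _) (pow_nonneg hr0 _))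
        (pow_le_one₀ hr0 hr1)
  have h2 : HasSum (fun m : ℕ => ∑ b, ∑ d ∈ e.divisors,
      ((ArithmeticFunction.moebius (e / d) : ℤ) : ℝ) * (if m = 0 then (0 : ℝ) else
        Polynomial.aeval u (Q b d m) * u⁻¹ ^ (m * n) * u⁻¹ ^ (m * s)))
      (∑ b, zL n (Q b) e s u) := by
    refine hasSum_sum fun b _ => ?_
    unfold zL
    exact hasSum_sum fun d hd => (h1 b d hd).hasSum.mul_left _
  rw [← h2.tsum_eq]
  refine tsum_congr fun m => ?_
  rw [aeval_PG]
  split_ifs with h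
  · simp
  · rw [Finset.sum_comm, Finset.sum_mul, Finset.sum_mul]
    refine Finset.sum_congr rfl fun d _ => ?_
    rw [Finset.mul_sum, Finset.sum_mul, Finset.sum_mul]
    refine Finset.sum_congr rfl fun b _ => ?_
    ring

end GLU14Aux

open GLU14Aux in
theorem stmt_GLU14 (hRAT : Stmt_RAT14) (hQ5 : Stmt_Q514) : Stmt_GLU14 := by
  intro P ι β _ _ f e R Λ Q V he hR hE hS hV
  set n := Fintype.card ι with hn
  obtain ⟨r, hr, hRr⟩ := hR
  set μ : ℕ → ℚ := fun d => ((ArithmeticFunction.moebius (e / d) : ℤ) : ℚ) with hμ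
  set Z : ℕ → PowerSeries (RatFunc ℚ) := fun d => zetaSer1 P.rat (RatFunc.X)⁻¹ f d with hZ
  -- the zeta function of `f`
  set Zf : PowerSeries (RatFunc ℚ) := ∑ d ∈ e.divisors, PowerSeries.C (RatFunc.C (μ d)) * Z d
    with hZf
  have hlimf : IsLim Zf (RatFunc.C (e.totient : ℚ) * R) := by
    rw [hRr]
    exact isLim_sum _ _ _ fun d hd => (IsLim.C (limOne_C (μ d))).mul (hr d hd)
  -- the exponential sequence
  set κ : ℕ → RatFunc ℚ := fun m => ∑ d ∈ e.divisors, RatFunc.C (μ d) *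
    (PowerSeries.coeff m (Z d) - ∑ b, if m = 0 then 0 else
        toRat (Q b d m) * (RatFunc.X)⁻¹ ^ (m * n)) with hκ
  have hκE : TS.ESeq Λ κ :=
    ESeq_sum Λ _ (fun d m => RatFunc.C (μ d) *
      (PowerSeries.coeff m (Z d) - ∑ b, if m = 0 then 0 else
        toRat (Q b d m) * (RatFunc.X)⁻¹ ^ (m * n))) fun d hd => TS.Q1Aux.smul _ (hE d hd)
  obtain ⟨l, nW, hl, hnW⟩ := id hκE
  have hl1 : ∀ q ∈ l, 1 ≤ q.1 := fun q hq => (hl q hq).1
  -- the series of the models
  have hZG : (PowerSeries.mk fun m => toRat (PG Q e m) * (RatFunc.X : RatFunc ℚ)⁻¹ ^ (m * n)) =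
      Zf - PowerSeries.mk κ := by
    ext m
    rw [PowerSeries.coeff_mk, map_sub, PowerSeries.coeff_mk, toRat_PG, hZf, hκ, map_sum]
    rw [← Finset.sum_sub_distrib]
    refine Finset.sum_congr rfl fun d _ => ?_
    rw [PowerSeries.coeff_C_mul]
    ring
  obtain ⟨num, den, h0, h1, h2⟩ := hlimf
  set W : RatFunc ℚ := RatFunc.C (e.totient : ℚ) * R - ∑ b, V b with hW
  refine ⟨W, ?_, by rw [hW]; ring⟩
  refine hQ5 Λ κ W hκE ⟨nW, TS.denP l, denP_coeff l hl1, hnW, ?_⟩
  have hVall : ∀ᶠ s : ℕ in atTop, ∀ b, Tendsto (zL n (Q b) e s) (𝓝[>] 1)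
      (𝓝 ((((V b).eval (RingHom.id ℚ) (s : ℚ) : ℚ) : ℝ))) := eventually_all.2 hV
  filter_upwards [hVall, ev_den W, ev_den (∑ b, V b), ev_sum Finset.univ V,
    eventually_ge_atTop 1] with s hs1 hs2 hs3 hs4 hs5
  obtain ⟨a1, a2, a3⟩ := h2 s
  have hl2 : (TS.denP l).eval ((RatFunc.X : RatFunc ℚ)⁻¹ ^ s) ≠ 0 :=
    TS.Q5Aux.denP_ne l hl1 s hs5
  refine ⟨hl2, hs2, ?_⟩
  have hRAT' := hRAT n (PG Q e) (num * TS.denP l - nW * den) (den * TS.denP l) s
    (∑ b, (V b).eval (RingHom.id ℚ) (s : ℚ)) (by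
      rw [Polynomial.mul_coeff_zero]
      exact mul_ne_zero h0 (denP_coeff l hl1)) (by
      rw [hZG, mul_sub]
      push_cast
      rw [← h1, ← hnW]
      ring) (fun u hu => summable_PG Q e n hS u hu) (by
      have hT : Tendsto (fun u : ℝ => ∑ b, zL n (Q b) e s u) (𝓝[>] 1)
          (𝓝 (∑ b, (((V b).eval (RingHom.id ℚ) (s : ℚ) : ℚ) : ℝ))) :=
        tendsto_finsetSum _ fun b _ => hs1 b
      push_cast
      refine hT.congr' ?_
      filter_upwards [self_mem_nhdsWithin] with u hu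
      exact (tsum_PG Q e n s hS u hu).symm) (by
      rw [Polynomial.eval_mul]
      exact mul_ne_zero a1 hl2)
  have hsub := limOne_sub a3 hRAT'
  have e1 : Polynomial.eval ((RatFunc.X : RatFunc ℚ)⁻¹ ^ s) num /
        Polynomial.eval ((RatFunc.X : RatFunc ℚ)⁻¹ ^ s) den -
      Polynomial.eval ((RatFunc.X : RatFunc ℚ)⁻¹ ^ s) (num * TS.denP l - nW * den) /
        Polynomial.eval ((RatFunc.X : RatFunc ℚ)⁻¹ ^ s) (den * TS.denP l) =
      Polynomial.eval ((RatFunc.X : RatFunc ℚ)⁻¹ ^ s) nW /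
        Polynomial.eval ((RatFunc.X : RatFunc ℚ)⁻¹ ^ s) (TS.denP l) := by
    rw [Polynomial.eval_sub, Polynomial.eval_mul, Polynomial.eval_mul, Polynomial.eval_mul]
    exact div_aux a1 hl2
  rw [e1] at hsub
  have e2 : (RatFunc.C (e.totient : ℚ) * R).eval (RingHom.id ℚ) (s : ℚ) -
      ∑ b, (V b).eval (RingHom.id ℚ) (s : ℚ) = W.eval (RingHom.id ℚ) (s : ℚ) := by
    rw [← hs4]
    have h3 := eval_add' hs2 hs3
    have h4 : W + ∑ b, V b = RatFunc.C (e.totient : ℚ) * R := by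
      rw [hW]
      ring
    rw [h4] at h3
    rw [h3]
    ring
  rw [e2] at hsub
  exact hsub

end Pool.Agent.Mono.NP
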